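import Pool.Agent.H82.PRP.Defs

/-!
# The growth of `F_p[[G]]`, computed in the product of the group algebras of the finite quotients
-/

namespace Pool.Agent.H82.PRP

open Filter Topology

/-- `dim P / (P ∩ Q)` for subspaces `P`, `Q` of a vector space -/
noncomputable def relDim {K A : Type} [CommRing K] [AddCommGroup A] [Module K A]
    (P Q : Submodule K A) : ℕ :=
  Module.finrank K (↥P ⧸ Q.comap P.subtype)

/-- `dim I^n / I^{n+1}` for a subspace `I` of an algebra with `I^{n+1} ⊆ I^n`; `I^n` is the span of
the `n`-fold products of elements of `I` -/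
noncomputable def gradDim {K A : Type} [CommRing K] [Ring A] [Algebra K A]
    (I : Submodule K A) (n : ℕ) : ℕ :=
  relDim (I ^ n) (I ^ (n + 1))

/-- the subspace of all compatible families `(f_i)` (that is, `t_{ij} (f_i) = f_j` whenever
`r i j`) with `ε_i (f_i) = 0` for all `i`, in the product of the algebras `A_i` -/
def famKer {ι K : Type} [CommRing K] (A : ι → Type) [∀ i, Ring (A i)] [∀ i, Algebra K (A i)]
    (r : ι → ι → Prop) (t : ∀ i j, r i j → (A i →ₐ[K] A j)) (ε : ∀ i, A i →ₐ[K] K) :
    Submodule K (∀ i, A i) where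
  carrier := {f | (∀ i j (h : r i j), t i j h (f i) = f j) ∧ ∀ i, ε i (f i) = 0}
  add_mem' := by
    rintro a b ⟨ha, ha'⟩ ⟨hb, hb'⟩
    refine ⟨fun i j h => ?_, fun i => ?_⟩
    · rw [Pi.add_apply, Pi.add_apply, map_add, ha i j h, hb i j h]
    · rw [Pi.add_apply, map_add, ha' i, hb' i, add_zero]
  zero_mem' := ⟨fun i j h => map_zero (t i j h), fun i => map_zero (ε i)⟩
  smul_mem' := by
    rintro c a ⟨ha, ha'⟩
    refine ⟨fun i j h => ?_, fun i => ?_⟩
    · rw [Pi.smul_apply, Pi.smul_apply, map_smul, ha i j h]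
    · rw [Pi.smul_apply, map_smul, ha' i, smul_zero]

/-- `a_n(G) = dim_{F_p} I^n / I^{n+1}`, where `I` is the augmentation ideal of the completed group
algebra `F_p[[G]] = lim F_p[G/U]` (`U` over the open normal subgroups of `G`); `F_p[[G]]` consists
of the compatible families in the product of the algebras `F_p[G/U]`, and `I` of the compatible
families whose members have augmentation zero -/
noncomputable def growthSeq (p : ℕ) (G : Type) [Group G] [TopologicalSpace G] (n : ℕ) : ℕ :=
  gradDim (famKer (K := ZMod p)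
    (fun U : OpenNormalSubgroup G => MonoidAlgebra (ZMod p) (G ⧸ U.toSubgroup))
    (fun U V => U.toSubgroup ≤ V.toSubgroup) (fun _ _ h => transMap p h)
    (fun _ => augMap p _)) n

/-! ### comparison with the subalgebra version -/

theorem map_augIhat (p : ℕ) (G : Type) [Group G] [TopologicalSpace G] :
    (augIhat p G).map (CGA p G).val.toLinearMap = famKer (K := ZMod p)
    (fun U : OpenNormalSubgroup G => MonoidAlgebra (ZMod p) (G ⧸ U.toSubgroup))
    (fun U V => U.toSubgroup ≤ V.toSubgroup) (fun _ _ h => transMap p h)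
    (fun _ => augMap p _) := by
  ext f
  constructor
  · rintro ⟨a, ha, rfl⟩
    exact ⟨a.2, ha⟩
  · rintro ⟨hf, hf'⟩
    exact ⟨⟨f, hf⟩, hf', rfl⟩

theorem map_augIhat_pow (p : ℕ) (G : Type) [Group G] [TopologicalSpace G] (n : ℕ) :
    ((augIhat p G) ^ n).map (CGA p G).val.toLinearMap = famKer (K := ZMod p)
    (fun U : OpenNormalSubgroup G => MonoidAlgebra (ZMod p) (G ⧸ U.toSubgroup))
    (fun U V => U.toSubgroup ≤ V.toSubgroup) (fun _ _ h => transMap p h)
    (fun _ => augMap p _) ^ n := by
  rw [Submodule.map_pow, map_augIhat]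

/-- the dimension of a quotient is not changed by an injective linear map -/
theorem finrank_quot_map {K A B : Type} [CommRing K] [AddCommGroup A] [Module K A]
    [AddCommGroup B] [Module K B] (f : A →ₗ[K] B) (hf : Function.Injective f)
    (P Q : Submodule K A) :
    Module.finrank K (↥P ⧸ Q.comap P.subtype) =
      Module.finrank K (↥(P.map f) ⧸ (Q.map f).comap (P.map f).subtype) := by
  let e : P ≃ₗ[K] P.map f := Submodule.equivMapOfInjective f hf P
  have he : (Q.comap P.subtype).map (e : P →ₗ[K] P.map f) =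
      (Q.map f).comap (P.map f).subtype := by
    ext x
    simp only [Submodule.mem_map, Submodule.mem_comap]
    constructor
    · rintro ⟨y, hy, rfl⟩
      exact ⟨y.1, hy, rfl⟩
    · rintro ⟨y, hy, hxy⟩
      obtain ⟨z, rfl⟩ := e.surjective x
      refine ⟨z, ?_, rfl⟩
      have h1 : f y = f z.1 := hxy
      have h2 : y = z.1 := hf h1
      change z.1 ∈ Q
      rw [← h2]
      exact hy
  exact LinearEquiv.finrank_eq (Submodule.Quotient.equiv _ _ e he)

theorem growthSeq_eq (p : ℕ) (G : Type) [Group G] [TopologicalSpace G] (n : ℕ) :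
    growthSeq p G n = aSeq p G n := by
  unfold growthSeq gradDim relDim aSeq
  rw [finrank_quot_map (CGA p G).val.toLinearMap (fun _ _ h => Subtype.ext h)]
  rw [map_augIhat_pow, map_augIhat_pow]

end Pool.Agent.H82.PRP
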