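import Pool.Agent.H82.PRP.Defs2

/-!
# Statements of the modules of the project PRP (MP_9180b3_al)
-/

namespace Pool.Agent.H82.PRP

open Filter Topology

/-! ## A. finite p-groups and group algebras -/

/-- NILP: the augmentation ideal of a finite p-group is nilpotent -/
def NILPStmt : Prop := ∀ (p : ℕ) [Fact p.Prime] (P : Type) [Group P] [Finite P], IsPGroup p P →
  ∃ m, 1 ≤ m ∧ (augI p P) ^ m = ⊥

/-- AUGB: basic facts on the augmentation ideal (any group) -/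
def AUGBStmt : Prop := ∀ (p : ℕ) [Fact p.Prime] (P : Type) [Group P],
  (∀ g : P, MonoidAlgebra.of (ZMod p) P g - 1 ∈ augI p P) ∧
  (∀ f : MonoidAlgebra (ZMod p) P, ∃ c : ZMod p, f - algebraMap (ZMod p) _ c ∈ augI p P) ∧
  (∀ n, 1 ≤ n → ∀ a : MonoidAlgebra (ZMod p) P, ∀ f ∈ (augI p P) ^ n,
    a * f ∈ (augI p P) ^ n ∧ f * a ∈ (augI p P) ^ n) ∧
  (∀ n, 1 ≤ n → (augI p P) ^ (n + 1) ≤ (augI p P) ^ n) ∧
  (∀ (R : Type) [Group R] (φ : P →* R) (n : ℕ), ∀ f ∈ (augI p P) ^ n,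
    MonoidAlgebra.mapDomainAlgHom (ZMod p) (ZMod p) φ f ∈ (augI p R) ^ n)

/-- GENL: the augmentation ideal is generated by `s j - 1` for generators `s j` -/
def GENLStmt : Prop := ∀ (p : ℕ) [Fact p.Prime] (P : Type) [Group P] (k : ℕ) (s : Fin k → P),
  Subgroup.closure (Set.range s) = ⊤ →
  (∀ f ∈ augI p P, ∃ c : Fin k → MonoidAlgebra (ZMod p) P,
    f = ∑ j, c j * (MonoidAlgebra.of (ZMod p) P (s j) - 1)) ∧
  (∀ n, 1 ≤ n → ∀ f ∈ (augI p P) ^ (n + 1), ∃ c : Fin k → MonoidAlgebra (ZMod p) P,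
    (∀ j, c j ∈ (augI p P) ^ n) ∧ f = ∑ j, c j * (MonoidAlgebra.of (ZMod p) P (s j) - 1))

/-- FDIM: `F_p[P]/I^n` is finite dimensional when `P` is finitely generated -/
def FDIMStmt : Prop := ∀ (p : ℕ) [Fact p.Prime] (P : Type) [Group P] (k : ℕ) (s : Fin k → P),
  Subgroup.closure (Set.range s) = ⊤ → ∀ n, 1 ≤ n →
  Module.Finite (ZMod p) (MonoidAlgebra (ZMod p) P ⧸ (augI p P) ^ n)

/-- BASISP: normal forms in a section of a finite p-group -/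
def BASISPStmt : Prop := ∀ (p : ℕ) [Fact p.Prime] (P : Type) [Group P] [Finite P], IsPGroup p P →
  ∀ A B : Subgroup P, B ≤ A → B.Normal → ∀ c : ℕ, B.relIndex A ≤ p ^ c →
  ∃ b : Fin c → P, (∀ i, b i ∈ A) ∧ ∀ g ∈ A, ∃ e : Fin c → ℕ, (∀ i, e i < p) ∧ ∃ h ∈ B,
    g = (List.ofFn fun i => b i ^ e i).prod * h

/-- PBW: the counting bound for `dim F_p[P]/I^n` -/
def PBWStmt : Prop := ∀ (p : ℕ) [Fact p.Prime] (P : Type) [Group P] [Finite P], IsPGroup p P →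
  ∀ E : ℕ → Subgroup P, (∀ n, (E n).Normal) → Antitone E → E 1 = ⊤ →
  (∀ k, 1 ≤ k → ∀ g ∈ E k, MonoidAlgebra.of (ZMod p) P g - 1 ∈ (augI p P) ^ k) →
  ∀ c : ℕ → ℕ, (∀ k, 1 ≤ k → (E (k + 1)).relIndex (E k) ≤ p ^ (c k)) →
  ∀ n, 1 ≤ n → ∀ t : ℝ, 0 < t → t < 1 →
  (Module.finrank (ZMod p) (MonoidAlgebra (ZMod p) P ⧸ (augI p P) ^ n) : ℝ) ≤
    (t⁻¹) ^ n * ∏ k ∈ Finset.Ico 1 n, ((1 - t ^ k)⁻¹) ^ (c k)

/-- SUBX: the product is bounded for subexponential `c` -/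
def SUBXStmt : Prop := ∀ c : ℕ → ℕ, Subexp c → ∀ t : ℝ, 0 < t → t < 1 →
  ∃ C : ℝ, 0 < C ∧ ∀ n, ∏ k ∈ Finset.Ico 1 n, ((1 - t ^ k)⁻¹) ^ (c k) ≤ C

/-- CENT: a nontrivial normal subgroup of a finite p-group contains a central element of order p -/
def CENTStmt : Prop := ∀ (p : ℕ) [Fact p.Prime] (P : Type) [Group P] [Finite P], IsPGroup p P →
  ∀ M : Subgroup P, M.Normal → M ≠ ⊥ → ∃ c ∈ M, c ≠ 1 ∧ c ^ p = 1 ∧ ∀ g, g * c = c * g

/-! ## B. the free pro-p group -/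

/-- GAM: the dimension filtration of the discrete free group -/
def GAMStmt : Prop := ∀ (p : ℕ) [Fact p.Prime], ∃ D : ℕ → Subgroup (FreeGroup (Fin 3)),
  (∀ n, (D n).Normal) ∧ Antitone D ∧ D 1 = ⊤ ∧
  (∀ a b : ℕ, ∀ g ∈ D a, ∀ h ∈ D b, g * h * g⁻¹ * h⁻¹ ∈ D (a + b)) ∧
  (∀ a : ℕ, ∀ g ∈ D a, g ^ p ∈ D (p * a)) ∧ (∀ n, ∃ k, (D n).index = p ^ k) ∧
  (∀ n, 1 ≤ n → ∀ g, g ∈ D n ↔ MonoidAlgebra.of (ZMod p) _ g - 1 ∈ (augI p (FreeGroup (Fin 3))) ^ n) ∧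
  (∀ (P : Type) [Group P] [Finite P], IsPGroup p P → ∀ φ : FreeGroup (Fin 3) →* P,
    ∃ n, D n ≤ φ.ker)

/-- FREE: existence of the free pro-p group with its filtration -/
def FREEStmt : Prop := ∀ (p : ℕ) [Fact p.Prime], ∃ (F : Type) (_ : Group F) (_ : TopologicalSpace F)
  (_ : IsTopologicalGroup F) (_ : CompactSpace F) (_ : T2Space F) (gen : Fin 3 → F)
  (D : ℕ → Subgroup F), FPP p F gen D

/-! ## C. compactness -/

/-- LIMP: convergent infinite products -/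
def LIMPStmt : Prop := ∀ (p : ℕ) [Fact p.Prime] (F : Type) [Group F] [TopologicalSpace F]
  [IsTopologicalGroup F] [CompactSpace F] [T2Space F] (gen : Fin 3 → F) (D : ℕ → Subgroup F),
  FPP p F gen D → ∀ w : ℕ → F, (∀ k, w k ∈ D k) → ∃ v, ∀ K, (pp w K)⁻¹ * v ∈ D K

/-- CPT: intersections of decreasing closed subgroups -/
def CPTStmt : Prop := ∀ (p : ℕ) [Fact p.Prime] (F : Type) [Group F] [TopologicalSpace F]
  [IsTopologicalGroup F] [CompactSpace F] [T2Space F] (gen : Fin 3 → F) (D : ℕ → Subgroup F),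
  FPP p F gen D → ∀ M : ℕ → Subgroup F, Antitone M → (∀ m, IsClosed (M m : Set F)) →
  ∀ n, ∃ m, M m ≤ (⨅ m, M m) ⊔ D n

/-- LCF: locally constant functions are invariant under some `D n` -/
def LCFStmt : Prop := ∀ (p : ℕ) [Fact p.Prime] (F : Type) [Group F] [TopologicalSpace F]
  [IsTopologicalGroup F] [CompactSpace F] [T2Space F] (gen : Fin 3 → F) (D : ℕ → Subgroup F),
  FPP p F gen D → ∀ (X : Type) (f : F → X), IsLocallyConstant f → ∃ n, RInv (D n) f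

/-! ## D. derivations -/

/-- EXT: derivations with prescribed values on the generators -/
def EXTStmt : Prop := ∀ (p : ℕ) [Fact p.Prime] (F : Type) [Group F] [TopologicalSpace F]
  [IsTopologicalGroup F] [CompactSpace F] [T2Space F] (gen : Fin 3 → F) (D : ℕ → Subgroup F),
  FPP p F gen D → ∀ φ : Fin 3 → F → ZMod p, (∃ n, ∀ i, RInv (D n) (φ i)) →
  ∃ δ : F → F → ZMod p, IsDer D δ ∧ ∀ i x, δ (gen i) x = φ i x

/-- UNIQ: a derivation is determined by its values on the generators -/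
def UNIQStmt : Prop := ∀ (p : ℕ) [Fact p.Prime] (F : Type) [Group F] [TopologicalSpace F]
  [IsTopologicalGroup F] [CompactSpace F] [T2Space F] (gen : Fin 3 → F) (D : ℕ → Subgroup F),
  FPP p F gen D → ∀ δ δ' : F → F → ZMod p, IsDer D δ → IsDer D δ' →
  (∀ i x, δ (gen i) x = δ' (gen i) x) → δ = δ'

/-- DINV: invariance of derivations under normal subgroups -/
def DINVStmt : Prop := ∀ (p : ℕ) [Fact p.Prime] (F : Type) [Group F] [TopologicalSpace F]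
  [IsTopologicalGroup F] [CompactSpace F] [T2Space F] (gen : Fin 3 → F) (D : ℕ → Subgroup F),
  FPP p F gen D → ∀ δ : F → F → ZMod p, IsDer D δ → ∀ L : Subgroup F, L.Normal →
  (∀ i, RInv L (δ (gen i))) → ∀ w, RInv L (δ w)

/-! ## E. lifting the solvability property -/

/-- STEP: one central step -/
def STEPStmt : Prop := ∀ (p : ℕ) [Fact p.Prime] (F : Type) [Group F] [TopologicalSpace F]
  [IsTopologicalGroup F] [CompactSpace F] [T2Space F] (gen : Fin 3 → F) (D : ℕ → Subgroup F),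
  FPP p F gen D → ∀ L : Subgroup F, L.Normal → ∀ c : F, c ^ p ∈ L →
  (∀ w, c * w * c⁻¹ * w⁻¹ ∈ L) → (∃ n, c ∉ L ⊔ D n) →
  ∀ (T : Type) (r : T → F), (∀ n, {τ | r τ ∉ D n}.Finite) →
  Solv (p := p) D r (L ⊔ Subgroup.zpowers c) → Solv (p := p) D r L

/-- LIFT: `S(NQ)` implies `S(N)` -/
def LIFTStmt : Prop := ∀ (p : ℕ) [Fact p.Prime] (F : Type) [Group F] [TopologicalSpace F]
  [IsTopologicalGroup F] [CompactSpace F] [T2Space F] (gen : Fin 3 → F) (D : ℕ → Subgroup F),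
  FPP p F gen D → ∀ M : Subgroup F, M.Normal → ∀ (T : Type) (r : T → F),
  (∀ n, {τ | r τ ∉ D n}.Finite) → Solv (p := p) D r M →
  ∀ N : Subgroup F, N.Normal → N ≤ M → Solv (p := p) D r N

/-! ## Q. the lamplighter groups -/

/-- LFIN: finiteness -/
def LFINStmt : Prop := ∀ (p : ℕ) [Fact p.Prime] (m : ℕ),
  (Finite (Lamp p m) ∧ IsPGroup p (Lamp p m)) ∧
  (Finite (E1 p (Lamp p m)) ∧ IsPGroup p (E1 p (Lamp p m)))

/-- LPR: the projections are compatible homomorphisms -/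
def LPRStmt : Prop := ∀ (p : ℕ) [Fact p.Prime] (m m' : ℕ) (h : m ≤ m'),
  (∀ a b : Lamp p m', lampProj p h (a * b) = lampProj p h a * lampProj p h b) ∧
  lampProj p h (lampX p m') = lampX p m ∧ lampProj p h (lampY p m') = lampY p m ∧
  lampProj p h (1 : Lamp p m') = 1

/-- SYS: the homomorphisms `α_m`, `β_m` exist -/
def SYSStmt : Prop := ∀ (p : ℕ) [Fact p.Prime] (F : Type) [Group F] [TopologicalSpace F]
  [IsTopologicalGroup F] [CompactSpace F] [T2Space F] (gen : Fin 3 → F) (D : ℕ → Subgroup F),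
  FPP p F gen D → ∃ (α : ∀ m, F →* Lamp p m) (β : ∀ m, F →* E1 p (Lamp p m)),
    LampSys p gen D α ∧ E1Sys p gen D β

/-- CMP: compatibility, surjectivity, closedness -/
def CMPStmt : Prop := ∀ (p : ℕ) [Fact p.Prime] (F : Type) [Group F] [TopologicalSpace F]
  [IsTopologicalGroup F] [CompactSpace F] [T2Space F] (gen : Fin 3 → F) (D : ℕ → Subgroup F),
  FPP p F gen D → ∀ (α : ∀ m, F →* Lamp p m) (β : ∀ m, F →* E1 p (Lamp p m)),
  LampSys p gen D α → E1Sys p gen D β →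
  (∀ (m m' : ℕ) (h : m ≤ m') (w : F), α m w = lampProj p h (α m' w)) ∧
  (∀ m, Function.Surjective (α m)) ∧ (∀ m, Function.Surjective (β m)) ∧
  (∀ m w, (β m w).q = α m w) ∧
  Antitone (fun m => (α m).ker) ∧ Antitone (fun m => (β m).ker) ∧
  (∀ m, IsClosed ((α m).ker : Set F)) ∧ (∀ m, IsClosed ((β m).ker : Set F)) ∧
  N1 β ≤ NQ α

/-- FACT: invariant functions factor through some `α m` -/
def FACTStmt : Prop := ∀ (p : ℕ) [Fact p.Prime] (F : Type) [Group F] [TopologicalSpace F]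
  [IsTopologicalGroup F] [CompactSpace F] [T2Space F] (gen : Fin 3 → F) (D : ℕ → Subgroup F),
  FPP p F gen D → ∀ (α : ∀ m, F →* Lamp p m), LampSys p gen D α →
  ∀ (X : Type) (f : F → X) (n : ℕ), RInv (D n) f → RInv (NQ α) f →
  ∃ m, ∃ f' : Lamp p m → X, ∀ x, f x = f' (α m x)

/-- JUN: functions pulled back from level `m` are combinations of short monomials in the lamps -/
def JUNStmt : Prop := ∀ (p : ℕ) [Fact p.Prime] (m m' : ℕ) (h : m ≤ m') (g : Lamp p m → ZMod p)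
  (s : ZMod (p ^ m')),
  (fun a : ZMod (p ^ m') → ZMod p => g (lampProj p h ⟨a, s⟩)) ∈
    Submodule.span (ZMod p) {φ : (ZMod (p ^ m') → ZMod p) → ZMod p |
      ∃ l : List (ZMod (p ^ m')), l.length ≤ (p - 1) * p ^ m ∧ φ = fun a => (l.map a).prod}

/-- TERM: explicit solution for a monomial -/
def TERMStmt : Prop := ∀ (p : ℕ) [Fact p.Prime] (d i₀ : ℕ), ∃ M, ∀ m, M ≤ m →
  ∀ l : List (ZMod (p ^ m)), l.length ≤ d → ∀ g₀ : ZMod (p ^ m),
  ∃ f : Lamp p m → ZMod p, ∃ K₀, ∀ K, K₀ ≤ K → ∀ (i : ℕ) (q : Lamp p m),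
    ∑ k ∈ Finset.range K, DSl (SS i k) f (q * lampX p m ^ (4 ^ k)) =
      if i = i₀ ∧ q.pos = g₀ then (l.map q.lamp).prod else 0

/-- SOLQ: solution at a finite level -/
def SOLQStmt : Prop := ∀ (p : ℕ) [Fact p.Prime] (m₀ i₀ : ℕ), ∃ m, ∃ h : m₀ ≤ m,
  ∀ g : Lamp p m₀ → ZMod p, ∃ f : Lamp p m → ZMod p, ∃ K₀, ∀ K, K₀ ≤ K →
  ∀ (i : ℕ) (q : Lamp p m),
    ∑ k ∈ Finset.range K, DSl (SS i k) f (q * lampX p m ^ (4 ^ k)) =
      if i = i₀ then g (lampProj p h q) else 0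

/-- VREL: the elements `v_i` -/
def VRELStmt : Prop := ∀ (p : ℕ) [Fact p.Prime] (F : Type) [Group F] [TopologicalSpace F]
  [IsTopologicalGroup F] [CompactSpace F] [T2Space F] (gen : Fin 3 → F) (D : ℕ → Subgroup F),
  FPP p F gen D → ∀ (α : ∀ m, F →* Lamp p m), LampSys p gen D α →
  ∃ v : ℕ → F, (∀ i, v i ∈ D (i + 2)) ∧ (∀ i, v i ∈ NQ α) ∧
    ∀ δ : F → F → ZMod p, IsDer D δ → (∀ w, RInv (NQ α) (δ w)) → δ (gen 0) = 0 →
    δ (gen 1) = 0 → ∀ (m : ℕ) (f : Lamp p m → ZMod p), (∀ x, δ (gen 2) x = f (α m x)) →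
    ∃ K₀, ∀ K, K₀ ≤ K → ∀ (i : ℕ) (x : F),
      δ (v i) x = ∑ k ∈ Finset.range K, DSl (SS i k) f (α m x * lampX p m ^ (4 ^ k))

/-- N1D: derivations supported on the third generator vanish on the kernel of `β m` -/
def N1DStmt : Prop := ∀ (p : ℕ) [Fact p.Prime] (F : Type) [Group F] [TopologicalSpace F]
  [IsTopologicalGroup F] [CompactSpace F] [T2Space F] (gen : Fin 3 → F) (D : ℕ → Subgroup F),
  FPP p F gen D → ∀ (α : ∀ m, F →* Lamp p m) (β : ∀ m, F →* E1 p (Lamp p m)),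
  LampSys p gen D α → E1Sys p gen D β → (∀ m w, (β m w).q = α m w) →
  ∀ δ : F → F → ZMod p, IsDer D δ → δ (gen 0) = 0 → δ (gen 1) = 0 →
  ∀ (m : ℕ) (f : Lamp p m → ZMod p), (∀ x, δ (gen 2) x = f (α m x)) →
  ∀ w ∈ (β m).ker, ∀ x, δ w x = 0

/-- QSOL: the property `S(NQ)` -/
def QSOLStmt : Prop := ∀ (p : ℕ) [Fact p.Prime] (F : Type) [Group F] [TopologicalSpace F]
  [IsTopologicalGroup F] [CompactSpace F] [T2Space F] (gen : Fin 3 → F) (D : ℕ → Subgroup F),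
  FPP p F gen D → ∀ (α : ∀ m, F →* Lamp p m) (β : ∀ m, F →* E1 p (Lamp p m)),
  LampSys p gen D α → E1Sys p gen D β →
  ∃ v : ℕ → F, (∀ i, v i ∈ D (i + 2)) ∧ (∀ i, v i ∈ NQ α) ∧
  ∀ (T : Type) (r : T → F) (ι : T → ℕ) (t : T → F), Function.Injective ι →
    (∀ τ, t τ ∈ N1 β) → (∀ τ, r τ = t τ * v (ι τ)) → Solv (p := p) D r (NQ α)

/-! ## G. growth -/

/-- LIDX: index of the image of `D n` in `Q_m` -/
def LIDXStmt : Prop := ∀ (p : ℕ) [Fact p.Prime] (F : Type) [Group F] [TopologicalSpace F]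
  [IsTopologicalGroup F] [CompactSpace F] [T2Space F] (gen : Fin 3 → F) (D : ℕ → Subgroup F),
  FPP p F gen D → ∀ (α : ∀ m, F →* Lamp p m), LampSys p gen D α →
  ∀ m n, 1 ≤ n → ((D n).map (α m)).index ≤ p ^ (2 * n)

/-- BQ: growth of the lamplighter group -/
def BQStmt : Prop := ∀ (p : ℕ) [Fact p.Prime] (F : Type) [Group F] [TopologicalSpace F]
  [IsTopologicalGroup F] [CompactSpace F] [T2Space F] (gen : Fin 3 → F) (D : ℕ → Subgroup F),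
  FPP p F gen D → ∀ (α : ∀ m, F →* Lamp p m), LampSys p gen D α →
  ∃ b : ℕ → ℕ, Subexp b ∧ ∀ m n, 1 ≤ n →
    Module.finrank (ZMod p) (MonoidAlgebra (ZMod p) (Lamp p m) ⧸ (augI p (Lamp p m)) ^ n) ≤ b n

/-- EIDX: index of the image of `D (n+1)` in `F_p[Q_m] ⋊ Q_m` -/
def EIDXStmt : Prop := ∀ (p : ℕ) [Fact p.Prime] (F : Type) [Group F] [TopologicalSpace F]
  [IsTopologicalGroup F] [CompactSpace F] [T2Space F] (gen : Fin 3 → F) (D : ℕ → Subgroup F),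
  FPP p F gen D → ∀ (α : ∀ m, F →* Lamp p m) (β : ∀ m, F →* E1 p (Lamp p m)),
  LampSys p gen D α → E1Sys p gen D β → ∀ m n, 1 ≤ n →
  ((D (n + 1)).map (β m)).index ≤
    p ^ (Module.finrank (ZMod p) (MonoidAlgebra (ZMod p) (Lamp p m) ⧸ (augI p (Lamp p m)) ^ n)) *
      ((D (n + 1)).map (α m)).index

/-- NIDX: index of `D (n+1) N_1` is `p^{subexponential}` -/
def NIDXStmt : Prop := ∀ (p : ℕ) [Fact p.Prime] (F : Type) [Group F] [TopologicalSpace F]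
  [IsTopologicalGroup F] [CompactSpace F] [T2Space F] (gen : Fin 3 → F) (D : ℕ → Subgroup F),
  FPP p F gen D → ∀ (α : ∀ m, F →* Lamp p m) (β : ∀ m, F →* E1 p (Lamp p m)),
  LampSys p gen D α → E1Sys p gen D β →
  ∃ s : ℕ → ℕ, Subexp s ∧ ∀ n, 1 ≤ n → (D (n + 1) ⊔ N1 β).index ≤ p ^ (s n)

/-- REL: choice of the relators -/
def RELStmt : Prop := ∀ (p : ℕ) [Fact p.Prime] (F : Type) [Group F] [TopologicalSpace F]
  [IsTopologicalGroup F] [CompactSpace F] [T2Space F] (gen : Fin 3 → F) (D : ℕ → Subgroup F),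
  FPP p F gen D → ∀ M : Subgroup F, M.Normal → ∀ v : ℕ → F, (∀ i, v i ∈ D (i + 2)) →
  ∃ (T : Type) (r : T → F) (ι : T → ℕ) (t : T → F), Function.Injective ι ∧ (∀ τ, t τ ∈ M) ∧
    (∀ τ, r τ = t τ * v (ι τ)) ∧ (∀ n, {τ | r τ ∉ D n}.Finite) ∧
    ∀ n, 1 ≤ n → D n ⊓ M ≤ D (n + 1) ⊔ Subgroup.normalClosure (Set.range r)

/-- GIDX: index comparison (pure group theory) -/
def GIDXStmt : Prop := ∀ (F : Type) [Group F] (A B M N : Subgroup F), A.Normal → B.Normal →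
  M.Normal → N.Normal → B ≤ A → B.FiniteIndex → A ⊓ M ≤ B ⊔ N →
  (B ⊔ N).relIndex (A ⊔ N) ≤ (B ⊔ M).index

/-- GUP: bound for the finite quotients of `F/N` -/
def GUPStmt : Prop := ∀ (p : ℕ) [Fact p.Prime] (F : Type) [Group F] [TopologicalSpace F]
  [IsTopologicalGroup F] [CompactSpace F] [T2Space F] (gen : Fin 3 → F) (D : ℕ → Subgroup F),
  FPP p F gen D → ∀ (N : Subgroup F) [N.Normal] (s : ℕ → ℕ),
  (∀ n, 1 ≤ n → (D (n + 1) ⊔ N).relIndex (D n ⊔ N) ≤ p ^ (s n)) →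
  ∀ U : OpenNormalSubgroup (F ⧸ N), ∀ n, 1 ≤ n → ∀ t : ℝ, 0 < t → t < 1 →
  (Module.finrank (ZMod p) (MonoidAlgebra (ZMod p) ((F ⧸ N) ⧸ U.toSubgroup) ⧸
    (augI p ((F ⧸ N) ⧸ U.toSubgroup)) ^ n) : ℝ) ≤
    (t⁻¹) ^ n * ∏ k ∈ Finset.Ico 1 n, ((1 - t ^ k)⁻¹) ^ (s k)

/-- CLO: powers of the augmentation ideal of `F_p[[G]]` are closed -/
def CLOStmt : Prop := ∀ (p : ℕ) [Fact p.Prime] (G : Type) [Group G] [TopologicalSpace G]
  [IsTopologicalGroup G] [CompactSpace G] (k : ℕ), GenBy G k → ∀ n, 1 ≤ n →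
  ∀ f : CGA p G, (∀ U : OpenNormalSubgroup G, f.1 U ∈ (augI p (G ⧸ U.toSubgroup)) ^ n) →
  f ∈ (augIhat p G) ^ n

/-- AUP: finite dimensionality and upper bound for `a_n(G)` -/
def AUPStmt : Prop := ∀ (p : ℕ) [Fact p.Prime] (G : Type) [Group G] [TopologicalSpace G]
  [IsTopologicalGroup G] [CompactSpace G] (k : ℕ), GenBy G k → ∀ b : ℕ → ℕ,
  (∀ (U : OpenNormalSubgroup G) (n : ℕ), 1 ≤ n →
    Module.finrank (ZMod p) (MonoidAlgebra (ZMod p) (G ⧸ U.toSubgroup) ⧸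
      (augI p (G ⧸ U.toSubgroup)) ^ n) ≤ b n) →
  ∀ n, 1 ≤ n → Module.Finite (ZMod p)
      (↥((augIhat p G) ^ n) ⧸ ((augIhat p G) ^ (n + 1)).comap ((augIhat p G) ^ n).subtype) ∧
    aSeq p G n ≤ b (n + 1)

/-- ALO: lower bound `a_n(G) ≥ 1` -/
def ALOStmt : Prop := ∀ (p : ℕ) [Fact p.Prime] (G : Type) [Group G] [TopologicalSpace G]
  [IsTopologicalGroup G] [CompactSpace G],
  (∀ k : ℕ, ∃ φ : G →* Multiplicative (ZMod (p ^ k)), Function.Surjective φ ∧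
    IsOpen (φ.ker : Set G)) →
  (∀ n, 1 ≤ n → Module.Finite (ZMod p)
      (↥((augIhat p G) ^ n) ⧸ ((augIhat p G) ^ (n + 1)).comap ((augIhat p G) ^ n).subtype)) →
  ∀ n, 1 ≤ n → 1 ≤ aSeq p G n

/-- LIM: the limit -/
def LIMStmt : Prop := ∀ a : ℕ → ℕ, (∀ n, 1 ≤ n → 1 ≤ a n) →
  (∀ t : ℝ, 0 < t → t < 1 → ∃ C : ℝ, 0 < C ∧ ∀ n, 1 ≤ n → (a n : ℝ) ≤ C * (t⁻¹) ^ (n + 1)) →
  Tendsto (fun n => (a n : ℝ) ^ (1 / (n : ℝ))) atTop (𝓝 1)

/-! ## H. cohomology -/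

/-- DD: `d ∘ d = 0` -/
def DDStmt : Prop := ∀ (p : ℕ) (G V : Type) [Group G] [AddCommGroup V] [Module (ZMod p) V]
  (ρ : Representation (ZMod p) G V) (n : ℕ) (f : (Fin n → G) → V), dM ρ (n + 1) (dM ρ n f) = 0

/-- ACY: coinduced modules are acyclic -/
def ACYStmt : Prop := ∀ (p : ℕ) (G V : Type) [Group G] [TopologicalSpace G]
  [IsTopologicalGroup G] [CompactSpace G] [AddCommGroup V] [Module (ZMod p) V] (n : ℕ),
  HV (lrep p G V) n

/-- SHI: dimension shifting -/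
def SHIStmt : Prop := ∀ (p : ℕ) (G A B C : Type) [Group G] [TopologicalSpace G]
  [IsTopologicalGroup G] [AddCommGroup A] [Module (ZMod p) A] [AddCommGroup B] [Module (ZMod p) B]
  [AddCommGroup C] [Module (ZMod p) C] (ρA : Representation (ZMod p) G A)
  (ρB : Representation (ZMod p) G B) (ρC : Representation (ZMod p) G C)
  (i : A →ₗ[ZMod p] B) (q : B →ₗ[ZMod p] C), (∀ g a, i (ρA g a) = ρB g (i a)) →
  (∀ g b, q (ρB g b) = ρC g (q b)) → Function.Injective i → Function.Surjective q →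
  (∀ b : B, IsLocallyConstant fun g => ρB g b) →
  (∀ b, q b = 0 ↔ ∃ a, i a = b) → ∀ n, HV ρB (n + 1) → HV ρC n → HV ρA (n + 1)

/-- RES: a coinduced resolution of length two gives cohomological dimension at most two -/
def RESStmt : Prop := ∀ (p : ℕ) [Fact p.Prime] (G : Type) [Group G] [TopologicalSpace G]
  [IsTopologicalGroup G] [CompactSpace G] (T : Type)
  (d₁ : LC p G (ZMod p) →ₗ[ZMod p] LC p G (Fin 3 → ZMod p))
  (d₂ : LC p G (Fin 3 → ZMod p) →ₗ[ZMod p] LC p G (T →₀ ZMod p)),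
  (∀ g a, d₁ (lrep p G (ZMod p) g a) = lrep p G (Fin 3 → ZMod p) g (d₁ a)) →
  (∀ g a, d₂ (lrep p G (Fin 3 → ZMod p) g a) = lrep p G (T →₀ ZMod p) g (d₂ a)) →
  (∀ a, d₁ a = 0 ↔ ∃ c : ZMod p, ∀ x, a.1 x = c) → (∀ b, d₂ b = 0 ↔ ∃ a, d₁ a = b) →
  Function.Surjective d₂ → CdLE p G 2

/-- EXA: the exact sequence for `G = F/N` -/
def EXAStmt : Prop := ∀ (p : ℕ) [Fact p.Prime] (F : Type) [Group F] [TopologicalSpace F]
  [IsTopologicalGroup F] [CompactSpace F] [T2Space F] (gen : Fin 3 → F) (D : ℕ → Subgroup F),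
  FPP p F gen D → ∀ (T : Type) (r : T → F), (∀ n, {τ | r τ ∉ D n}.Finite) →
  ∀ (N : Subgroup F) [N.Normal], (∀ τ, r τ ∈ N) →
  (∀ M : Subgroup F, M.Normal → (∀ τ, r τ ∈ M) → IsClosed (M : Set F) → N ≤ M) →
  Solv (p := p) D r N →
  ∃ (d₁ : LC p (F ⧸ N) (ZMod p) →ₗ[ZMod p] LC p (F ⧸ N) (Fin 3 → ZMod p))
    (d₂ : LC p (F ⧸ N) (Fin 3 → ZMod p) →ₗ[ZMod p] LC p (F ⧸ N) (T →₀ ZMod p)),
    (∀ g a, d₁ (lrep p (F ⧸ N) (ZMod p) g a) = lrep p (F ⧸ N) (Fin 3 → ZMod p) g (d₁ a)) ∧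
    (∀ g a, d₂ (lrep p (F ⧸ N) (Fin 3 → ZMod p) g a) =
      lrep p (F ⧸ N) (T →₀ ZMod p) g (d₂ a)) ∧
    (∀ a, d₁ a = 0 ↔ ∃ c : ZMod p, ∀ x, a.1 x = c) ∧ (∀ b, d₂ b = 0 ↔ ∃ a, d₁ a = b) ∧
    Function.Surjective d₂

/-! ## I. the group `G = F/N` -/

/-- QUO: topological properties of the quotient -/
def QUOStmt : Prop := ∀ (p : ℕ) [Fact p.Prime] (F : Type) [Group F] [TopologicalSpace F]
  [IsTopologicalGroup F] [CompactSpace F] [T2Space F] (gen : Fin 3 → F) (D : ℕ → Subgroup F),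
  FPP p F gen D → ∀ (N : Subgroup F) [N.Normal], IsClosed (N : Set F) →
  T2Space (F ⧸ N) ∧ TotallyDisconnectedSpace (F ⧸ N) ∧ IsProP p (F ⧸ N) ∧ GenBy (F ⧸ N) 3

/-- RNK: a compact group with all `C_p ≀ C_{p^m}` as continuous quotients has infinite rank -/
def RNKStmt : Prop := ∀ (p : ℕ) [Fact p.Prime] (G : Type) [Group G] [TopologicalSpace G]
  [IsTopologicalGroup G], (∀ m : ℕ, ∃ φ : G →* Lamp p m, Function.Surjective φ ∧
    IsOpen (φ.ker : Set G)) → ¬ FiniteRank G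

/-- FIN: the theorem -/
def FINStmt : Prop := ∀ (p : ℕ) [Fact p.Prime], ∃ (G : Type) (_ : Group G) (_ : TopologicalSpace G),
  IsTopologicalGroup G ∧ CompactSpace G ∧ T2Space G ∧ TotallyDisconnectedSpace G ∧
  IsProP p G ∧ GenBy G 3 ∧ CdLE p G 2 ∧ ¬ FiniteRank G ∧
  Tendsto (fun n => (aSeq p G n : ℝ) ^ (1 / (n : ℝ))) atTop (𝓝 1)

end Pool.Agent.H82.PRP
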