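import Pool.Agent.H82.PRP.UNIQ

/-!
# DINV: invariance of derivations under normal subgroups
-/

namespace Pool.Agent.H82.PRP

open Filter Topology

open UNIQ in
theorem dinv_thm : DINVStmt := by
  intro p hp F _ _ _ _ _ gen D hF δ hδ L hL hg
  obtain ⟨n, hn⟩ := hδ.loc
  have e : ∀ x l v : F, x * l * v = x * v * (v⁻¹ * l * v) := by
    intro x l v
    group
  have hconj : ∀ l ∈ L, ∀ v : F, v⁻¹ * l * v ∈ L := by
    intro l hl v
    have := hL.conj_mem l hl v⁻¹
    simpa using this
  let H : Subgroup F :=
    { carrier := {w | RInv L (δ w)}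
      one_mem' := by
        intro x l _
        rw [der_one hδ, der_one hδ]
      mul_mem' := by
        intro v w hv hw x l hl
        rw [hδ.mul, hδ.mul, hv x l hl, e x l v, hw (x * v) _ (hconj l hl v)]
      inv_mem' := by
        intro w hw x l hl
        rw [der_inv hδ, der_inv hδ, e x l w⁻¹, hw (x * w⁻¹) _ (hconj l hl w⁻¹)] }
  have hH : H = ⊤ := by
    apply all_of_gens hF H hg n
    intro d hd x l _
    have h1 : ∀ y, δ d y = 0 := by
      intro y
      have := (hn 1 y d hd).1
      rwa [one_mul, der_one hδ] at this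
    rw [h1, h1]
  intro w
  have : w ∈ H := by
    rw [hH]
    exact Subgroup.mem_top w
  exact this

end Pool.Agent.H82.PRP
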