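import Pool.Agent.H82.PRP.Stmts

/-!
# EXA: the relation module complex of `F ⧸ N`
-/

namespace Pool.Agent.H82.PRP

open Filter Topology

namespace EXA

variable {p : ℕ} {F : Type} [Group F]

theorem rinv_mk_out {V : Type} {N : Subgroup F} {f : F → V} (hN : RInv N f) (x : F) :
    f (Quotient.out (QuotientGroup.mk x : F ⧸ N)) = f x := by
  obtain ⟨l, hl⟩ := QuotientGroup.mk_out_eq_mul N x
  rw [hl]
  exact hN x _ l.2

theorem rinv_isOpen {V : Type} [TopologicalSpace F] [IsTopologicalGroup F] {U : Subgroup F}
    (hU : IsOpen (U : Set F)) {f : F → V} (h : RInv U f) : IsLocallyConstant f := by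
  rw [IsLocallyConstant.iff_exists_open]
  intro x
  refine ⟨(fun y => x⁻¹ * y) ⁻¹' (U : Set F), hU.preimage (continuous_const_mul x⁻¹), ?_, ?_⟩
  · simp
  · intro y hy
    have h1 := h x (x⁻¹ * y) hy
    rwa [mul_inv_cancel_left] at h1

theorem lc_of_mk {V : Type} [TopologicalSpace F] [IsTopologicalGroup F] {N : Subgroup F}
    {f : F ⧸ N → V} (h : IsLocallyConstant fun x : F => f (QuotientGroup.mk x)) :
    IsLocallyConstant f := by
  intro s
  exact (isQuotientMap_quotient_mk' (X := F) (s := QuotientGroup.leftRel N)).isOpen_preimage.mp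
    (h s)

theorem mk_lc {V : Type} [TopologicalSpace F] [IsTopologicalGroup F] {N : Subgroup F}
    {f : F ⧸ N → V} (h : IsLocallyConstant f) :
    IsLocallyConstant fun x : F => f (QuotientGroup.mk x) :=
  h.comp_continuous QuotientGroup.continuous_mk

theorem der_one {D : ℕ → Subgroup F} {δ : F → F → ZMod p} (h : IsDer D δ) (x : F) :
    δ 1 x = 0 := by
  have h1 := h.mul 1 1 x
  simp only [mul_one] at h1
  simpa using h1

theorem der_add {D : ℕ → Subgroup F} (hanti : Antitone D) {δ δ' : F → F → ZMod p}
    (h : IsDer D δ) (h' : IsDer D δ') : IsDer D (fun w x => δ w x + δ' w x) := by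
  refine ⟨fun v w x => ?_, ?_⟩
  · rw [h.mul, h'.mul]; ring
  · obtain ⟨n, hn⟩ := h.loc
    obtain ⟨n', hn'⟩ := h'.loc
    refine ⟨max n n', fun w x d hd => ?_⟩
    have a1 := hn w x d (hanti (le_max_left n n') hd)
    have a2 := hn' w x d (hanti (le_max_right n n') hd)
    exact ⟨by rw [a1.1, a2.1], by rw [a1.2, a2.2]⟩

theorem der_smul {D : ℕ → Subgroup F} {δ : F → F → ZMod p} (c : ZMod p)
    (h : IsDer D δ) : IsDer D (fun w x => c * δ w x) := by
  refine ⟨fun v w x => ?_, ?_⟩
  · rw [h.mul]; ring
  · obtain ⟨n, hn⟩ := h.loc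
    refine ⟨n, fun w x d hd => ?_⟩
    have a1 := hn w x d hd
    exact ⟨by rw [a1.1], by rw [a1.2]⟩

theorem der_trans {D : ℕ → Subgroup F} {δ : F → F → ZMod p} (g : F)
    (h : IsDer D δ) : IsDer D (fun w x => δ w (g * x)) := by
  refine ⟨fun v w x => ?_, ?_⟩
  · rw [h.mul, mul_assoc]
  · obtain ⟨n, hn⟩ := h.loc
    refine ⟨n, fun w x d hd => ?_⟩
    have a1 := hn w (g * x) d hd
    refine ⟨a1.1, ?_⟩
    rw [← mul_assoc]
    exact a1.2

/-- the derivation of an invariant function -/
theorem der_fun {D : ℕ → Subgroup F} (hnorm : ∀ n, (D n).Normal) {f : F → ZMod p} {n : ℕ}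
    (hf : RInv (D n) f) : IsDer D (fun w x => f (x * w) - f x) := by
  refine ⟨fun v w x => ?_, n, fun w x d hd => ⟨?_, ?_⟩⟩
  · rw [mul_assoc]; ring
  · rw [← mul_assoc, hf _ d hd]
  · have h1 : x * d * w = x * w * (w⁻¹ * d * w) := by group
    have h2 : w⁻¹ * d * w ∈ D n := by
      have := (hnorm n).conj_mem d hd w⁻¹
      simpa using this
    rw [h1, hf _ _ h2, hf x d hd]

theorem der_vanish {D : ℕ → Subgroup F} {δ : F → F → ZMod p} (h : IsDer D δ) :
    ∃ n, ∀ w ∈ D n, ∀ x, δ w x = 0 := by
  obtain ⟨n, hn⟩ := h.loc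
  refine ⟨n, fun w hw x => ?_⟩
  have h1 := (hn 1 x w hw).1
  rw [one_mul] at h1
  rw [h1, der_one h]

end EXA

open EXA in
theorem exa_thm (hLCF : LCFStmt) (hEXT : EXTStmt) (hUNIQ : UNIQStmt) (hDINV : DINVStmt) :
    EXAStmt := by
  intro p hp F iG iT iTG iC iT2 gen D hF T r hfin N hNn hrN hmin hSolv
  classical
  -- the derivation of a function
  have hex : ∀ b : LC p (F ⧸ N) (Fin 3 → ZMod p), ∃ δ : F → F → ZMod p, IsDer D δ ∧
      ∀ i x, δ (gen i) x = b.1 (QuotientGroup.mk x) i := by
    intro b
    obtain ⟨n, hn⟩ := hLCF p F gen D hF _ _ (mk_lc b.2)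
    apply hEXT p F gen D hF (fun i x => b.1 (QuotientGroup.mk x) i)
    exact ⟨n, fun i x l hl => congrFun (hn x l hl) i⟩
  choose dl hdl hdlg using hex
  have hinvN : ∀ b w, RInv N (dl b w) := by
    intro b
    apply hDINV p F gen D hF (dl b) (hdl b) N hNn
    intro i x l hl
    rw [hdlg, hdlg]
    have h1 : (QuotientGroup.mk (x * l) : F ⧸ N) = QuotientGroup.mk x := by
      rw [QuotientGroup.eq]
      simpa using N.inv_mem hl
    rw [h1]
  have huniq : ∀ (b : LC p (F ⧸ N) (Fin 3 → ZMod p)) (δ : F → F → ZMod p), IsDer D δ →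
      (∀ i x, δ (gen i) x = b.1 (QuotientGroup.mk x) i) → dl b = δ := by
    intro b δ hδ hg
    apply hUNIQ p F gen D hF _ _ (hdl b) hδ
    intro i x
    rw [hg, hdlg]
  have hfs : ∀ (b : LC p (F ⧸ N) (Fin 3 → ZMod p)) (x : F),
      {τ | dl b (r τ) x ≠ 0}.Finite := by
    intro b x
    obtain ⟨n, hn⟩ := der_vanish (hdl b)
    refine (hfin n).subset ?_
    intro τ hτ hτ'
    exact hτ (hn _ hτ' x)
  -- the second differential
  let e2 : LC p (F ⧸ N) (Fin 3 → ZMod p) → F → (T →₀ ZMod p) := fun b x =>
    Finsupp.ofSupportFinite (fun τ => dl b (r τ) x) (hfs b x)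
  have he2 : ∀ b x τ, e2 b x τ = dl b (r τ) x := fun b x τ => rfl
  have he2N : ∀ b, RInv N (e2 b) := by
    intro b x l hl
    ext τ
    rw [he2, he2]
    exact hinvN b _ x l hl
  have he2lc : ∀ b, IsLocallyConstant fun q : F ⧸ N => e2 b q.out := by
    intro b
    apply lc_of_mk
    have : (fun x : F => e2 b (Quotient.out (QuotientGroup.mk x : F ⧸ N))) = e2 b := by
      funext x
      exact rinv_mk_out (he2N b) x
    rw [this]
    obtain ⟨n, hn⟩ := (hdl b).loc
    apply rinv_isOpen (hF.isOpen n)
    intro x l hl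
    ext τ
    rw [he2, he2]
    exact (hn _ x l hl).2
  let d2 : LC p (F ⧸ N) (Fin 3 → ZMod p) →ₗ[ZMod p] LC p (F ⧸ N) (T →₀ ZMod p) :=
    { toFun := fun b => ⟨fun q => e2 b q.out, he2lc b⟩
      map_add' := by
        intro b b'
        have h1 : dl (b + b') = fun w x => dl b w x + dl b' w x := by
          apply huniq _ _ (der_add hF.anti (hdl b) (hdl b'))
          intro i x
          rw [hdlg, hdlg]
          rfl
        apply Subtype.ext
        funext q
        ext τ
        change dl (b + b') (r τ) q.out = dl b (r τ) q.out + dl b' (r τ) q.out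
        rw [h1]
      map_smul' := by
        intro c b
        have h1 : dl (c • b) = fun w x => c * dl b w x := by
          apply huniq _ _ (der_smul c (hdl b))
          intro i x
          rw [hdlg]
          rfl
        apply Subtype.ext
        funext q
        ext τ
        change dl (c • b) (r τ) q.out = c * dl b (r τ) q.out
        rw [h1] }
  have hd2 : ∀ b x τ, (d2 b).1 (QuotientGroup.mk x) τ = dl b (r τ) x := by
    intro b x τ
    change e2 b (Quotient.out (QuotientGroup.mk x : F ⧸ N)) τ = _
    rw [rinv_mk_out (he2N b) x]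
    rfl
  -- the first differential
  let d1 : LC p (F ⧸ N) (ZMod p) →ₗ[ZMod p] LC p (F ⧸ N) (Fin 3 → ZMod p) :=
    { toFun := fun a => ⟨fun q j => a.1 (q * QuotientGroup.mk (gen j)) - a.1 q, by
        apply lc_of_mk
        obtain ⟨n, hn⟩ := hLCF p F gen D hF _ _ (mk_lc a.2)
        apply rinv_isOpen (hF.isOpen n)
        intro x l hl
        funext j
        have h2 : x * l * gen j = x * gen j * ((gen j)⁻¹ * l * gen j) := by group
        have h3 : (gen j)⁻¹ * l * gen j ∈ D n := by
          have := (hF.normal n).conj_mem l hl (gen j)⁻¹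
          simpa using this
        have h4 := hn (x * gen j) _ h3
        have h5 := hn x l hl
        simp only at h4 h5
        change a.1 (QuotientGroup.mk (x * l * gen j)) - a.1 (QuotientGroup.mk (x * l)) =
          a.1 (QuotientGroup.mk (x * gen j)) - a.1 (QuotientGroup.mk x)
        rw [h2, h4, h5]⟩
      map_add' := by
        intro a a'
        apply Subtype.ext
        funext q j
        change (a.1 (q * QuotientGroup.mk (gen j)) + a'.1 (q * QuotientGroup.mk (gen j))) -
          (a.1 q + a'.1 q) = (a.1 (q * QuotientGroup.mk (gen j)) - a.1 q) +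
          (a'.1 (q * QuotientGroup.mk (gen j)) - a'.1 q)
        ring
      map_smul' := by
        intro c a
        apply Subtype.ext
        funext q j
        change c * a.1 (q * QuotientGroup.mk (gen j)) - c * a.1 q =
          c * (a.1 (q * QuotientGroup.mk (gen j)) - a.1 q)
        ring }
  have hd1 : ∀ (a : LC p (F ⧸ N) (ZMod p)) (q : F ⧸ N) (j : Fin 3),
      (d1 a).1 q j = a.1 (q * QuotientGroup.mk (gen j)) - a.1 q := fun _ _ _ => rfl
  have hdl1 : ∀ a : LC p (F ⧸ N) (ZMod p),
      dl (d1 a) = fun w x => a.1 (QuotientGroup.mk (x * w)) - a.1 (QuotientGroup.mk x) := by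
    intro a
    obtain ⟨n, hn⟩ := hLCF p F gen D hF _ _ (mk_lc a.2)
    apply huniq _ _ (der_fun hF.normal hn)
    intro i x
    rw [hd1, QuotientGroup.mk_mul]
  refine ⟨d1, d2, ?_, ?_, ?_, ?_, ?_⟩
  · intro g a
    apply Subtype.ext
    funext q j
    change a.1 (g⁻¹ * (q * QuotientGroup.mk (gen j))) - a.1 (g⁻¹ * q) =
      a.1 (g⁻¹ * q * QuotientGroup.mk (gen j)) - a.1 (g⁻¹ * q)
    rw [mul_assoc]
  · intro g b
    obtain ⟨γ, rfl⟩ := QuotientGroup.mk_surjective g
    have h1 : dl (lrep p (F ⧸ N) (Fin 3 → ZMod p) (QuotientGroup.mk γ) b) =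
        fun w x => dl b w (γ⁻¹ * x) := by
      apply huniq _ _ (der_trans γ⁻¹ (hdl b))
      intro i x
      rw [hdlg]
      rfl
    apply Subtype.ext
    funext q
    obtain ⟨x, rfl⟩ := QuotientGroup.mk_surjective q
    ext τ
    rw [hd2, h1]
    change _ = (d2 b).1 ((QuotientGroup.mk γ : F ⧸ N)⁻¹ * QuotientGroup.mk x) τ
    rw [← QuotientGroup.mk_inv, ← QuotientGroup.mk_mul, hd2]
  · intro a
    constructor
    · intro h
      refine ⟨a.1 1, ?_⟩
      obtain ⟨n, hn⟩ := hLCF p F gen D hF _ _ (mk_lc a.2)
      let K : Subgroup F :=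
        { carrier := {w | ∀ x : F, a.1 (QuotientGroup.mk (x * w)) = a.1 (QuotientGroup.mk x)}
          mul_mem' := by
            intro v w hv hw x
            rw [← mul_assoc, hw, hv]
          one_mem' := by
            intro x
            rw [mul_one]
          inv_mem' := by
            intro w hw x
            have := hw (x * w⁻¹)
            rw [inv_mul_cancel_right] at this
            exact this.symm }
      have hK : K = ⊤ := by
        rw [eq_top_iff, ← hF.dense n, sup_le_iff, Subgroup.closure_le]
        constructor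
        · rintro _ ⟨j, rfl⟩ x
          have h1 : (d1 a).1 (QuotientGroup.mk x) j = 0 := by rw [h]; rfl
          rw [hd1] at h1
          rw [QuotientGroup.mk_mul]
          exact sub_eq_zero.mp h1
        · intro w hw x
          exact hn x w hw
      intro q
      obtain ⟨x, rfl⟩ := QuotientGroup.mk_surjective q
      have h2 : x ∈ K := by rw [hK]; trivial
      have h3 := h2 1
      rw [one_mul] at h3
      rw [h3]
      rfl
    · rintro ⟨c, hc⟩
      apply Subtype.ext
      funext q j
      rw [hd1, hc, hc, sub_self]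
      rfl
  · intro b
    constructor
    · intro h
      have hr0 : ∀ τ x, dl b (r τ) x = 0 := by
        intro τ x
        rw [← hd2, h]
        rfl
      have hmul := (hdl b).mul
      obtain ⟨n, hn⟩ := (hdl b).loc
      have hM : ∀ w ∈ N, ∀ x, dl b w x = 0 := by
        let M : Subgroup F :=
          { carrier := {w | (∀ x, dl b w x = 0) ∧ ∀ v x, dl b v (x * w) = dl b v x}
            mul_mem' := by
              rintro u w ⟨hu, hu'⟩ ⟨hw, hw'⟩
              refine ⟨fun x => ?_, fun v x => ?_⟩
              · rw [hmul, hu, hw, add_zero]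
              · rw [← mul_assoc, hw', hu']
            one_mem' := ⟨fun x => der_one (hdl b) x, fun v x => by rw [mul_one]⟩
            inv_mem' := by
              rintro w ⟨hw, hw'⟩
              refine ⟨fun x => ?_, fun v x => ?_⟩
              · have h1 := hmul w⁻¹ w x
                rw [inv_mul_cancel, der_one (hdl b), hw, add_zero] at h1
                exact h1.symm
              · have h1 := hw' v (x * w⁻¹)
                rw [inv_mul_cancel_right] at h1
                exact h1.symm }
        have hMn : M.Normal := by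
          constructor
          rintro w ⟨hw, hw'⟩ u
          have hinv : ∀ v x, dl b v (x * (u * w * u⁻¹)) = dl b v x := by
            intro v x
            have h1 := hmul u⁻¹ v (x * u * w)
            have h2 := hmul u⁻¹ v (x * u)
            rw [hw', hw'] at h1
            rw [h2] at h1
            have h3 : x * u * w * u⁻¹ = x * (u * w * u⁻¹) := by group
            have h4 : x * u * u⁻¹ = x := by group
            rw [h3, h4] at h1
            exact (add_left_cancel h1).symm
          refine ⟨fun x => ?_, hinv⟩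
          rw [hmul (u * w) u⁻¹ x, hmul u w x, hw, add_zero]
          have h5 : x * (u * w) = (x * u) * w := by group
          rw [h5, hw']
          have h6 := hmul u u⁻¹ x
          rw [mul_inv_cancel, der_one (hdl b)] at h6
          exact h6.symm
        have hMo : IsOpen (M : Set F) := by
          apply Subgroup.isOpen_mono _ (hF.isOpen n)
          intro w hw
          refine ⟨fun x => ?_, fun v x => (hn v x w hw).2⟩
          have h1 := (hn 1 x w hw).1
          rw [one_mul, der_one (hdl b)] at h1
          exact h1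
        have hle := hmin M hMn (fun τ => ⟨hr0 τ, fun v x => hinvN b v x _ (hrN τ)⟩)
          (Subgroup.isClosed_of_isOpen M hMo)
        intro w hw
        exact (hle hw).1
      have ha : ∃ a : LC p (F ⧸ N) (ZMod p), ∀ x, a.1 (QuotientGroup.mk x) = dl b x 1 := by
        have hRN : RInv N (fun x => dl b x 1) := by
          intro x l hl
          change dl b (x * l) 1 = dl b x 1
          rw [hmul, one_mul, hM l hl, add_zero]
        have hRD : RInv (D n) (fun x => dl b x 1) := by
          intro x l hl
          exact (hn x 1 l hl).1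
        refine ⟨⟨fun q => dl b q.out 1, ?_⟩, fun x => ?_⟩
        · apply lc_of_mk
          have : (fun x : F => dl b (Quotient.out (QuotientGroup.mk x : F ⧸ N)) 1) =
              fun x => dl b x 1 := by
            funext x
            exact rinv_mk_out hRN x
          rw [this]
          exact rinv_isOpen (hF.isOpen n) hRD
        · exact rinv_mk_out hRN x
      obtain ⟨a, ha⟩ := ha
      refine ⟨a, ?_⟩
      apply Subtype.ext
      funext q j
      obtain ⟨x, rfl⟩ := QuotientGroup.mk_surjective q
      rw [hd1, ← QuotientGroup.mk_mul, ha, ha, hmul, one_mul, add_sub_cancel_left, hdlg]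
    · rintro ⟨a, rfl⟩
      apply Subtype.ext
      funext q
      obtain ⟨x, rfl⟩ := QuotientGroup.mk_surjective q
      ext τ
      rw [hd2, hdl1]
      change _ = (0 : ZMod p)
      have : (QuotientGroup.mk (x * r τ) : F ⧸ N) = QuotientGroup.mk x := by
        rw [QuotientGroup.eq]
        simpa using N.inv_mem (hrN τ)
      simp only [this, sub_self]
  · intro b'
    obtain ⟨n, hn⟩ := hLCF p F gen D hF _ _ (mk_lc b'.2)
    have hfinite : {τ | (fun x : F => b'.1 (QuotientGroup.mk x) τ) ≠ 0}.Finite := by
      have hrange : (Set.range b'.1).Finite := IsLocallyConstant.range_finite b'.2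
      have : {τ | (fun x : F => b'.1 (QuotientGroup.mk x) τ) ≠ 0} ⊆
          ⋃ v ∈ Set.range b'.1, (v.support : Set T) := by
        intro τ hτ
        have : ∃ x : F, b'.1 (QuotientGroup.mk x) τ ≠ 0 := by
          by_contra hcon
          push Not at hcon
          exact hτ (funext hcon)
        obtain ⟨x, hx⟩ := this
        simp only [Set.mem_iUnion]
        exact ⟨b'.1 (QuotientGroup.mk x), ⟨_, rfl⟩, by simpa using hx⟩
      exact (hrange.biUnion fun v _ => v.support.finite_toSet).subset this
    obtain ⟨δ, hδ, hδN, hδr⟩ := hSolv (fun τ x => b'.1 (QuotientGroup.mk x) τ) hfinite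
      ⟨n, fun t x l hl => by
        have := hn x l hl
        simp only at this
        change b'.1 (QuotientGroup.mk (x * l)) t = b'.1 (QuotientGroup.mk x) t
        rw [this]⟩
      (fun t x l hl => by
        have : (QuotientGroup.mk (x * l) : F ⧸ N) = QuotientGroup.mk x := by
          rw [QuotientGroup.eq]
          simpa using N.inv_mem hl
        simp only [this])
    have hRN : RInv N (fun x j => δ (gen j) x) := by
      intro x l hl
      funext j
      exact hδN _ x l hl
    obtain ⟨m, hm⟩ := hδ.loc
    have hb : ∃ b : LC p (F ⧸ N) (Fin 3 → ZMod p), ∀ x j,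
        b.1 (QuotientGroup.mk x) j = δ (gen j) x := by
      refine ⟨⟨fun q j => δ (gen j) q.out, ?_⟩, fun x j => congrFun (rinv_mk_out hRN x) j⟩
      apply lc_of_mk
      have : (fun (x : F) (j : Fin 3) => δ (gen j) (Quotient.out (QuotientGroup.mk x : F ⧸ N))) =
          fun x j => δ (gen j) x := by
        funext x
        exact rinv_mk_out hRN x
      rw [this]
      apply rinv_isOpen (hF.isOpen m)
      intro x l hl
      funext j
      exact (hm _ x l hl).2
    obtain ⟨b, hb⟩ := hb
    refine ⟨b, ?_⟩
    have h1 : dl b = δ := huniq b δ hδ fun i x => (hb x i).symm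
    apply Subtype.ext
    funext q
    obtain ⟨x, rfl⟩ := QuotientGroup.mk_surjective q
    ext τ
    rw [hd2, h1, hδr]

end Pool.Agent.H82.PRP
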