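import Pool.Agent.H82.PRP.Stmts

/-!
# FACT: invariant functions factor through some `α m`
-/

namespace Pool.Agent.H82.PRP

open Filter Topology

theorem fact_thm (hSYS : SYSStmt) (hCMP : CMPStmt) (hCPT : CPTStmt) :
    FACTStmt := by
  intro p hp F _ _ _ _ _ gen D hF α hα X f n hn hinv
  obtain ⟨-, β, -, hβ⟩ := hSYS p F gen D hF
  obtain ⟨-, hs, -, -, ha, -, hc, -, -⟩ := hCMP p F gen D hF α β hα hβ
  obtain ⟨m, hm⟩ := hCPT p F gen D hF (fun m => (α m).ker) ha hc n
  have hDn := hF.normal n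
  have hsup : RInv (NQ α ⊔ D n) f := by
    intro x l hl
    obtain ⟨a, ha', d, hd, rfl⟩ := Subgroup.mem_sup_of_normal_right.1 hl
    rw [← mul_assoc, hn _ d hd, hinv x a ha']
  have hker : ∀ w w', α m w = α m w' → f w = f w' := by
    intro w w' h
    have h1 : w⁻¹ * w' ∈ (α m).ker := by
      rw [MonoidHom.mem_ker, map_mul, map_inv, h, inv_mul_cancel]
    have h2 := hsup w _ (hm h1)
    rw [mul_inv_cancel_left] at h2
    exact h2.symm
  refine ⟨m, fun q => f (Classical.choose (hs m q)), fun x => ?_⟩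
  apply hker
  exact (Classical.choose_spec (hs m (α m x))).symm

end Pool.Agent.H82.PRP
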