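import Pool.Agent.H82.PRP.Stmts

/-!
# Final assembly for MP_9180b3_al
-/

namespace Pool.Agent.H82.PRP

open Filter Topology

theorem fin_thm (hFREE : FREEStmt) (hSYS : SYSStmt) (hCMP : CMPStmt) (hQSOL : QSOLStmt)
    (hREL : RELStmt) (hLIFT : LIFTStmt) (hEXA : EXAStmt) (hRES : RESStmt) (hQUO : QUOStmt)
    (hRNK : RNKStmt) (hNIDX : NIDXStmt) (hGIDX : GIDXStmt) (hGUP : GUPStmt) (hSUBX : SUBXStmt)
    (hAUP : AUPStmt) (hALO : ALOStmt) (hLIM : LIMStmt) : FINStmt := by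
  intro p hp
  obtain ⟨F, iG, iT, iTG, iC, iT2, gen, D, hF⟩ := hFREE p
  obtain ⟨α, β, hα, hβ⟩ := hSYS p F gen D hF
  obtain ⟨hc, hαs, hβs, hq, hαa, hβa, hαc, hβc, hN1NQ⟩ := hCMP p F gen D hF α β hα hβ
  obtain ⟨v, hvD, hvNQ, hsolv⟩ := hQSOL p F gen D hF α β hα hβ
  have hN1n : (N1 β).Normal := by
    unfold N1
    exact Subgroup.normal_iInf_normal fun m => inferInstance
  have hNQn : (NQ α).Normal := by
    unfold NQ
    exact Subgroup.normal_iInf_normal fun m => inferInstance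
  have hNQcl : IsClosed (NQ α : Set F) := by
    unfold NQ
    rw [Subgroup.coe_iInf]
    exact isClosed_iInter hαc
  obtain ⟨T, r, ι, t, hinj, ht, hr, hfin, hcov⟩ := hREL p F gen D hF (N1 β) hN1n v hvD
  set N : Subgroup F := (Subgroup.normalClosure (Set.range r)).topologicalClosure with hN
  have hNn : N.Normal := Subgroup.is_normal_topologicalClosure _
  have hNc : IsClosed (N : Set F) := Subgroup.isClosed_topologicalClosure _
  have hrN : ∀ τ, r τ ∈ N := fun τ =>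
    Subgroup.le_topologicalClosure _ (Subgroup.subset_normalClosure (Set.mem_range_self τ))
  have hmin : ∀ M : Subgroup F, M.Normal → (∀ τ, r τ ∈ M) → IsClosed (M : Set F) → N ≤ M := by
    intro M hM hrM hMc
    apply Subgroup.topologicalClosure_minimal _ _ hMc
    have := hM
    apply Subgroup.normalClosure_le_normal
    rintro _ ⟨τ, rfl⟩
    exact hrM τ
  have hNNQ : N ≤ NQ α := by
    apply hmin _ hNQn _ hNQcl
    intro τ
    rw [hr τ]
    exact mul_mem (hN1NQ (ht τ)) (hvNQ _)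
  have hS1 : Solv (p := p) D r (NQ α) := hsolv T r ι t hinj ht hr
  have hS2 : Solv (p := p) D r N := hLIFT p F gen D hF (NQ α) hNQn T r hfin hS1 N hNn hNNQ
  obtain ⟨d₁, d₂, he1, he2, hk1, hk2, hs2⟩ := hEXA p F gen D hF T r hfin N hrN hmin hS2
  have hcd : CdLE p (F ⧸ N) 2 := hRES p (F ⧸ N) T d₁ d₂ he1 he2 hk1 hk2 hs2
  obtain ⟨hT2, hTD, hPP, hG3⟩ := hQUO p F gen D hF N hNc
  have hαN : ∀ m, N ≤ (α m).ker := fun m => hNNQ.trans (iInf_le _ m)
  have hαo : ∀ m, IsOpen ((α m).ker : Set F) := by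
    intro m
    obtain ⟨n, hn⟩ := hα.cont m
    exact Subgroup.isOpen_mono hn (hF.isOpen n)
  have hlift : ∀ m, ∃ φ : (F ⧸ N) →* Lamp p m, Function.Surjective φ ∧
      IsOpen (φ.ker : Set (F ⧸ N)) := by
    intro m
    refine ⟨QuotientGroup.lift N (α m) (fun x hx => hαN m hx), ?_, ?_⟩
    · intro q
      obtain ⟨w, hw⟩ := hαs m q
      exact ⟨QuotientGroup.mk w, by simpa using hw⟩
    · have h1 : IsOpen ((QuotientGroup.mk : F → F ⧸ N) ⁻¹'
          ((QuotientGroup.lift N (α m) (fun x hx => hαN m hx)).ker : Set (F ⧸ N))) := by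
        have h2 : ((QuotientGroup.mk : F → F ⧸ N) ⁻¹'
          ((QuotientGroup.lift N (α m) (fun x hx => hαN m hx)).ker : Set (F ⧸ N)))
            = ((α m).ker : Set F) := by
          ext w
          simp [MonoidHom.mem_ker]
        rw [h2]
        exact hαo m
      exact (QuotientGroup.isQuotientMap_mk N).isOpen_preimage.1 h1
  have hrk : ¬ FiniteRank (F ⧸ N) := hRNK p (F ⧸ N) hlift
  obtain ⟨s, hs, hsi⟩ := hNIDX p F gen D hF α β hα hβ
  have hrel : ∀ n, 1 ≤ n → (D (n + 1) ⊔ N).relIndex (D n ⊔ N) ≤ p ^ (s n) := by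
    intro n hn
    refine le_trans (hGIDX F (D n) (D (n + 1)) (N1 β) N (hF.normal n) (hF.normal (n + 1)) hN1n hNn
      (hF.anti (Nat.le_succ n)) ?_ ?_) (hsi n hn)
    · obtain ⟨k, hk⟩ := hF.index (n + 1)
      refine ⟨?_⟩
      rw [hk]
      exact (pow_pos hp.out.pos k).ne'
    · exact (hcov n hn).trans (sup_le_sup_left (Subgroup.le_topologicalClosure _) _)
  have hupper : ∀ t : ℝ, 0 < t → t < 1 → ∃ C : ℝ, 0 < C ∧
      ∀ (U : OpenNormalSubgroup (F ⧸ N)) (n : ℕ), 1 ≤ n →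
      (Module.finrank (ZMod p) (MonoidAlgebra (ZMod p) ((F ⧸ N) ⧸ U.toSubgroup) ⧸
        (augI p ((F ⧸ N) ⧸ U.toSubgroup)) ^ n) : ℝ) ≤ C * (t⁻¹) ^ n := by
    intro t ht0 ht1
    obtain ⟨C, hC, hCb⟩ := hSUBX s hs t ht0 ht1
    refine ⟨C, hC, fun U n hn => ?_⟩
    have h1 := hGUP p F gen D hF N s hrel U n hn t ht0 ht1
    refine h1.trans ?_
    rw [mul_comm]
    exact mul_le_mul_of_nonneg_right (hCb n) (by positivity)
  have hbt : ∀ t : ℝ, 0 < t → t < 1 → ∃ C : ℝ, 0 < C ∧ ∀ n, 1 ≤ n →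
      Module.Finite (ZMod p)
        (↥((augIhat p (F ⧸ N)) ^ n) ⧸
          ((augIhat p (F ⧸ N)) ^ (n + 1)).comap ((augIhat p (F ⧸ N)) ^ n).subtype) ∧
      (aSeq p (F ⧸ N) n : ℝ) ≤ C * (t⁻¹) ^ (n + 1) := by
    intro t ht0 ht1
    obtain ⟨C, hC, hCb⟩ := hupper t ht0 ht1
    have hnn : ∀ n : ℕ, 0 ≤ C * (t⁻¹) ^ n := fun n => by positivity
    have key := hAUP p (F ⧸ N) 3 hG3 (fun n => ⌊C * (t⁻¹) ^ n⌋₊) (by
      intro U n hn
      exact Nat.le_floor (hCb U n hn))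
    refine ⟨C, hC, fun n hn => ⟨(key n hn).1, ?_⟩⟩
    have h2 := (key n hn).2
    calc (aSeq p (F ⧸ N) n : ℝ) ≤ ((⌊C * (t⁻¹) ^ (n + 1)⌋₊ : ℕ) : ℝ) := by exact_mod_cast h2
      _ ≤ C * (t⁻¹) ^ (n + 1) := Nat.floor_le (hnn _)
  have hlow : ∀ n, 1 ≤ n → 1 ≤ aSeq p (F ⧸ N) n := by
    apply hALO p (F ⧸ N)
    · intro k
      obtain ⟨φ, hφs, hφo⟩ := hlift k
      let π : Lamp p k →* Multiplicative (ZMod (p ^ k)) :=
        { toFun := fun q => Multiplicative.ofAdd q.pos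
          map_one' := rfl
          map_mul' := fun a b => rfl }
      refine ⟨π.comp φ, ?_, ?_⟩
      · intro z
        obtain ⟨g, hg⟩ := hφs ⟨0, Multiplicative.toAdd z⟩
        refine ⟨g, ?_⟩
        simp only [MonoidHom.comp_apply, hg]
        rfl
      · apply Subgroup.isOpen_mono (H₁ := φ.ker) _ hφo
        intro g hg
        rw [MonoidHom.mem_ker] at hg ⊢
        simp [hg]
    · intro n hn
      obtain ⟨C, _, h⟩ := hbt (1 / 2) (by norm_num) (by norm_num)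
      exact (h n hn).1
  refine ⟨F ⧸ N, inferInstance, inferInstance, inferInstance, inferInstance, hT2, hTD, hPP, hG3,
    hcd, hrk, ?_⟩
  apply hLIM (aSeq p (F ⧸ N)) hlow
  intro t ht0 ht1
  obtain ⟨C, hC, h⟩ := hbt t ht0 ht1
  exact ⟨C, hC, fun n hn => (h n hn).2⟩

end Pool.Agent.H82.PRP
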