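import Pool.Agent.H82.PRP.UNIQ

/-!
# N1D: derivations supported on the third generator vanish on the kernel of `β m`
-/

namespace Pool.Agent.H82.PRP

open Filter Topology

namespace N1D

/-- evaluation of an element of the group algebra against a function translated by `y` -/
noncomputable def ev {p : ℕ} {Q : Type} [Group Q] (f : Q → ZMod p) (y : Q)
    (u : MonoidAlgebra (ZMod p) Q) : ZMod p :=
  u.coeff.sum fun h a => a * f (y * h)

theorem ev_zero {p : ℕ} {Q : Type} [Group Q] (f : Q → ZMod p) (y : Q) : ev f y 0 = 0 := by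
  simp [ev]

theorem ev_add {p : ℕ} {Q : Type} [Group Q] (f : Q → ZMod p) (y : Q)
    (u v : MonoidAlgebra (ZMod p) Q) : ev f y (u + v) = ev f y u + ev f y v := by
  unfold ev
  rw [MonoidAlgebra.coeff_add]
  apply Finsupp.sum_add_index'
  · intro h
    simp
  · intro h a b
    ring

theorem ev_single {p : ℕ} {Q : Type} [Group Q] (f : Q → ZMod p) (y h : Q) (a : ZMod p) :
    ev f y (MonoidAlgebra.single h a) = a * f (y * h) := by
  unfold ev
  rw [MonoidAlgebra.coeff_single, Finsupp.sum_single_index]
  simp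

theorem ev_of_mul {p : ℕ} {Q : Type} [Group Q] (f : Q → ZMod p) (y q : Q)
    (u : MonoidAlgebra (ZMod p) Q) :
    ev f y (MonoidAlgebra.of (ZMod p) Q q * u) = ev f (y * q) u := by
  induction u using MonoidAlgebra.induction_linear with
  | zero => simp [ev_zero]
  | add u v hu hv => rw [mul_add, ev_add, ev_add, hu, hv]
  | single h a =>
    rw [MonoidAlgebra.of_apply, MonoidAlgebra.single_mul_single, ev_single, ev_single, one_mul,
      mul_assoc]

end N1D

open UNIQ N1D in
theorem n1d_thm (hUNIQ : UNIQStmt) : N1DStmt := by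
  intro p hp F _ _ _ _ _ gen D hF α β hα hβ hq δ hδ h0 h1 m f h2 w hw x
  have hδ' : IsDer D (fun w x => ev f (α m x) (β m w).u) := by
    obtain ⟨n1, hn1⟩ := hα.cont m
    obtain ⟨n2, hn2⟩ := hβ.cont m
    refine ⟨fun v w x => ?_, max n1 n2, fun w x d hd => ⟨?_, ?_⟩⟩
    · simp only [map_mul, E1.mul_u, ev_add, ev_of_mul, hq]
    · have : β m d = 1 := hn2 (hF.anti (le_max_right n1 n2) hd)
      simp only [map_mul, this, mul_one]
    · have : α m d = 1 := hn1 (hF.anti (le_max_left n1 n2) hd)
      simp only [map_mul, this, mul_one]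
  have he : δ = fun w x => ev f (α m x) (β m w).u := by
    apply hUNIQ p F gen D hF δ _ hδ hδ'
    intro i x
    fin_cases i
    · change δ (gen 0) x = ev f (α m x) (β m (gen 0)).u
      rw [h0, hβ.gen0 m]
      simp [ev_zero]
    · change δ (gen 1) x = ev f (α m x) (β m (gen 1)).u
      rw [h1, hβ.gen1 m]
      simp [ev_zero]
    · change δ (gen 2) x = ev f (α m x) (β m (gen 2)).u
      rw [h2, hβ.gen2 m]
      rw [MonoidAlgebra.one_def, ev_single]
      simp
  rw [he]
  have : β m w = 1 := hw
  simp only [this, E1.one_u, ev_zero]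

end Pool.Agent.H82.PRP
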