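import Pool.Agent.H82.PRP.Stmts

/-!
# NIDX: index of `D (n+1) N_1`
-/

namespace Pool.Agent.H82.PRP

open Filter Topology

namespace NIDX

theorem subexp_add {a b : ℕ → ℕ} (ha : Subexp a) (hb : Subexp b) : Subexp (fun n => a n + b n) := by
  intro ε hε
  obtain ⟨C, hC⟩ := ha ε hε
  obtain ⟨C', hC'⟩ := hb ε hε
  refine ⟨C + C', fun n => ?_⟩
  have h1 := hC n
  have h2 := hC' n
  push_cast
  linarith

theorem subexp_lin : Subexp (fun n => 2 * (n + 1)) := by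
  intro ε hε
  refine ⟨2 + 2 / ε, fun n => ?_⟩
  have hb : 1 + (n : ℝ) * ε ≤ (1 + ε) ^ n :=
    one_add_mul_le_pow (by linarith) n
  have h1 : (1 : ℝ) ≤ (1 + ε) ^ n := one_le_pow₀ (by linarith)
  have h2 : (n : ℝ) ≤ (1 + ε) ^ n / ε := by
    rw [le_div_iff₀ hε]
    linarith
  push_cast
  have h3 : (2 + 2 / ε) * (1 + ε) ^ n = 2 * (1 + ε) ^ n + 2 * ((1 + ε) ^ n / ε) := by ring
  rw [h3]
  linarith

end NIDX

open NIDX in
theorem nidx_thm (hCPT : CPTStmt) (hCMP : CMPStmt) (hEIDX : EIDXStmt) (hLIDX : LIDXStmt)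
    (hBQ : BQStmt) : NIDXStmt := by
  intro p hp F _ _ _ _ _ gen D hF α β hα hβ
  obtain ⟨-, -, hsur, -, -, hant, -, hcl, -⟩ := hCMP p F gen D hF α β hα hβ
  obtain ⟨b, hb, hbn⟩ := hBQ p F gen D hF α hα
  refine ⟨fun n => b n + 2 * (n + 1), subexp_add hb subexp_lin, ?_⟩
  intro n hn
  obtain ⟨m, hm⟩ := hCPT p F gen D hF (fun m => (β m).ker) hant hcl (n + 1)
  have hDn := hF.normal (n + 1)
  have hle : D (n + 1) ⊔ (β m).ker ≤ D (n + 1) ⊔ N1 β := by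
    refine sup_le le_sup_left ?_
    rw [sup_comm]
    exact hm
  have hfin : (D (n + 1) ⊔ (β m).ker).index ≠ 0 := by
    obtain ⟨k, hk⟩ := hF.index (n + 1)
    have h1 : (D (n + 1)).index ≠ 0 := by
      rw [hk]
      exact (pow_pos hp.out.pos k).ne'
    have h2 := Subgroup.index_dvd_of_le (le_sup_left : D (n + 1) ≤ D (n + 1) ⊔ (β m).ker)
    exact fun h => h1 (Nat.eq_zero_of_zero_dvd (h ▸ h2))
  have h1 : (D (n + 1) ⊔ N1 β).index ≤ (D (n + 1) ⊔ (β m).ker).index :=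
    Nat.le_of_dvd (Nat.pos_of_ne_zero hfin) (Subgroup.index_dvd_of_le hle)
  have h2 : (D (n + 1) ⊔ (β m).ker).index = ((D (n + 1)).map (β m)).index := by
    rw [Subgroup.index_map, MonoidHom.range_eq_top.2 (hsur m), Subgroup.index_top, mul_one]
  have h3 := hEIDX p F gen D hF α β hα hβ m n hn
  have h4 := hLIDX p F gen D hF α hα m (n + 1) (by omega)
  calc (D (n + 1) ⊔ N1 β).index ≤ ((D (n + 1)).map (β m)).index := h1.trans_eq h2
    _ ≤ _ := h3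
    _ ≤ p ^ (b n) * p ^ (2 * (n + 1)) :=
      Nat.mul_le_mul (Nat.pow_le_pow_right hp.out.pos (hbn m n hn)) h4
    _ = p ^ (b n + 2 * (n + 1)) := by rw [pow_add]

end Pool.Agent.H82.PRP
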