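import Pool.Agent.H82.PRP.Stmts

/-!
# QSOL: the property `S(NQ)`
-/

namespace Pool.Agent.H82.PRP

open Filter Topology

namespace QSOL

theorem isDer_zero {p : ℕ} {F : Type} [Group F] (D : ℕ → Subgroup F) :
    IsDer (p := p) D (fun _ _ => 0) :=
  ⟨fun _ _ _ => by simp, 0, fun _ _ _ _ => ⟨rfl, rfl⟩⟩

theorem isDer_add {p : ℕ} {F : Type} [Group F] {D : ℕ → Subgroup F} (hD : Antitone D)
    {δ ε : F → F → ZMod p} (h1 : IsDer D δ) (h2 : IsDer D ε) :
    IsDer D (fun w x => δ w x + ε w x) := by
  obtain ⟨n1, hn1⟩ := h1.loc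
  obtain ⟨n2, hn2⟩ := h2.loc
  refine ⟨fun v w x => ?_, max n1 n2, fun w x d hd => ?_⟩
  · rw [h1.mul, h2.mul]
    ring
  · have hd1 := hn1 w x d (hD (le_max_left n1 n2) hd)
    have hd2 := hn2 w x d (hD (le_max_right n1 n2) hd)
    constructor
    · simp only [hd1.1, hd2.1]
    · simp only [hd1.2, hd2.2]

end QSOL

theorem qsol_thm (hSOLQ : SOLQStmt) (hVREL : VRELStmt) (hN1D : N1DStmt) (hFACT : FACTStmt)
    (hCMP : CMPStmt) (hEXT : EXTStmt) (hDINV : DINVStmt) : QSOLStmt := by
  intro p hp F _ _ _ _ _ gen D hF α β hα hβ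
  obtain ⟨hc, -, -, hq, -, -, -, -, hN1NQ⟩ := hCMP p F gen D hF α β hα hβ
  obtain ⟨v, hvD, hvNQ, hv⟩ := hVREL p F gen D hF α hα
  refine ⟨v, hvD, hvNQ, ?_⟩
  intro T r ι t hinj ht hr
  have hNQn : (NQ α).Normal := by
    unfold NQ
    exact Subgroup.normal_iInf_normal fun m => inferInstance
  -- the solution for a family supported at one index
  have single : ∀ (τ₀ : T) (g : F → ZMod p), (∃ n, RInv (D n) g) → RInv (NQ α) g →
      ∃ δ : F → F → ZMod p, IsDer D δ ∧ (∀ w, RInv (NQ α) (δ w)) ∧
        (∀ x, δ (r τ₀) x = g x) ∧ ∀ τ, τ ≠ τ₀ → ∀ x, δ (r τ) x = 0 := by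
    rintro τ₀ g ⟨n, hn⟩ hg
    obtain ⟨m₀, g', hg'⟩ := hFACT p F gen D hF α hα (ZMod p) g n hn hg
    obtain ⟨m, hm, hsol⟩ := hSOLQ p m₀ (ι τ₀)
    obtain ⟨f, K₁, hf⟩ := hsol g'
    obtain ⟨n₁, hn₁⟩ := hα.cont m
    have hfinv : RInv (D n₁) (fun x => f (α m x)) := by
      intro x l hl
      have : α m l = 1 := hn₁ hl
      simp [this]
    obtain ⟨δ, hδ, hδg⟩ := hEXT p F gen D hF
      (fun i x => if i = 2 then f (α m x) else 0) ⟨n₁, by
        intro i x l hl
        by_cases hi : i = 2
        · simp only [hi, if_true]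
          exact hfinv x l hl
        · simp [hi]⟩
    have h0 : δ (gen 0) = 0 := by
      funext x
      rw [hδg]
      simp
    have h1 : δ (gen 1) = 0 := by
      funext x
      rw [hδg]
      simp
    have h2 : ∀ x, δ (gen 2) x = f (α m x) := by
      intro x
      rw [hδg]
      simp
    have hinvf : RInv (NQ α) (fun x => f (α m x)) := by
      intro x l hl
      have : α m l = 1 := by
        have := (iInf_le (fun m => (α m).ker) m) hl
        simpa [MonoidHom.mem_ker] using this
      simp [this]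
    have hδinv : ∀ w, RInv (NQ α) (δ w) := by
      apply hDINV p F gen D hF δ hδ (NQ α) hNQn
      intro i x l hl
      rw [hδg, hδg]
      by_cases hi : i = 2
      · simp only [hi, if_true]
        exact hinvf x l hl
      · simp [hi]
    obtain ⟨K₂, hK₂⟩ := hv δ hδ hδinv h0 h1 m f h2
    have hvi : ∀ i x, δ (v i) x = if i = ι τ₀ then g x else 0 := by
      intro i x
      rw [hK₂ (max K₁ K₂) (le_max_right _ _) i x, hf (max K₁ K₂) (le_max_left _ _) i (α m x)]
      by_cases hi : i = ι τ₀
      · simp only [hi, if_true]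
        rw [← hc m₀ m hm x, hg' x]
      · simp [hi]
    have hrt : ∀ τ x, δ (r τ) x = δ (v (ι τ)) x := by
      intro τ x
      rw [hr τ, hδ.mul]
      have hz : δ (t τ) x = 0 := by
        apply hN1D p F gen D hF α β hα hβ hq δ hδ h0 h1 m f h2 (t τ)
        exact (iInf_le (fun m => (β m).ker) m) (ht τ)
      rw [hz, zero_add]
      exact hδinv (v (ι τ)) x (t τ) (hN1NQ (ht τ))
    refine ⟨δ, hδ, hδinv, ?_, ?_⟩
    · intro x
      rw [hrt, hvi]
      simp
    · intro τ hτ x
      rw [hrt, hvi]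
      have : ι τ ≠ ι τ₀ := fun h => hτ (hinj h)
      simp [this]
  -- finite sums
  classical
  have main : ∀ (s : Finset T) (f : T → F → ZMod p), (∀ τ, τ ∉ s → f τ = 0) →
      (∃ n, ∀ τ, RInv (D n) (f τ)) → (∀ τ, RInv (NQ α) (f τ)) →
      ∃ δ : F → F → ZMod p, IsDer D δ ∧ (∀ w, RInv (NQ α) (δ w)) ∧ ∀ τ x, δ (r τ) x = f τ x := by
    intro s
    induction s using Finset.induction_on with
    | empty =>
      intro f hf _ _
      refine ⟨fun _ _ => 0, QSOL.isDer_zero D, fun _ _ _ _ => rfl, fun τ x => ?_⟩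
      rw [hf τ (Finset.notMem_empty τ)]
      rfl
    | insert a s ha ih =>
      rintro f hf ⟨n, hn⟩ hinv
      obtain ⟨δ₁, hδ₁, hδ₁i, hδ₁r⟩ := ih (Function.update f a 0)
        (by
          intro τ hτ
          by_cases h : τ = a
          · subst h
            simp
          · rw [Function.update_of_ne h]
            exact hf τ (by simp [h, hτ]))
        ⟨n, by
          intro τ
          by_cases h : τ = a
          · subst h
            intro x l _
            simp
          · rw [Function.update_of_ne h]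
            exact hn τ⟩
        (by
          intro τ
          by_cases h : τ = a
          · subst h
            intro x l _
            simp
          · rw [Function.update_of_ne h]
            exact hinv τ)
      obtain ⟨δ₂, hδ₂, hδ₂i, hδ₂a, hδ₂r⟩ := single a (f a) ⟨n, hn a⟩ (hinv a)
      refine ⟨fun w x => δ₁ w x + δ₂ w x, QSOL.isDer_add hF.anti hδ₁ hδ₂, ?_, ?_⟩
      · intro w x l hl
        simp only [hδ₁i w x l hl, hδ₂i w x l hl]
      · intro τ x
        simp only [hδ₁r]
        by_cases h : τ = a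
        · subst h
          simp [hδ₂a]
        · rw [Function.update_of_ne h, hδ₂r τ h, add_zero]
  intro f hfin hn hinv
  exact main hfin.toFinset f (by
    intro τ hτ
    simpa using hτ) hn hinv

end Pool.Agent.H82.PRP
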