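import Pool.Agent.H82.PRP.Stmts

/-!
# SOLQ: solution at a finite level
-/

namespace Pool.Agent.H82.PRP

open Filter Topology

namespace SOLQ

theorem DSl_add {p m : ℕ} (S : List ℕ) (f g : Lamp p m → ZMod p) (q : Lamp p m) :
    DSl S (fun x => f x + g x) q = DSl S f q + DSl S g q := by
  induction S generalizing q with
  | nil => rfl
  | cons s S ih =>
    simp only [DSl, ih]
    ring

theorem DSl_smul {p m : ℕ} (S : List ℕ) (c : ZMod p) (f : Lamp p m → ZMod p) (q : Lamp p m) :
    DSl S (fun x => c * f x) q = c * DSl S f q := by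
  induction S generalizing q with
  | nil => rfl
  | cons s S ih =>
    simp only [DSl, ih]
    ring

theorem DSl_zero {p m : ℕ} (S : List ℕ) (q : Lamp p m) :
    DSl S (fun _ => 0) q = 0 := by
  induction S generalizing q with
  | nil => rfl
  | cons s S ih =>
    simp only [DSl, ih]
    ring

/-- solvability of the finite level equation -/
def P (p m i₀ : ℕ) (φ : Lamp p m → ZMod p) : Prop :=
  ∃ f : Lamp p m → ZMod p, ∃ K₀, ∀ K, K₀ ≤ K → ∀ (i : ℕ) (q : Lamp p m),
    ∑ k ∈ Finset.range K, DSl (SS i k) f (q * lampX p m ^ (4 ^ k)) =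
      if i = i₀ then φ q else 0

theorem P_zero (p m i₀ : ℕ) : P p m i₀ (fun _ => 0) := by
  refine ⟨fun _ => 0, 0, fun K _ i q => ?_⟩
  simp [DSl_zero]

theorem P_add {p m i₀ : ℕ} {φ ψ : Lamp p m → ZMod p} (h1 : P p m i₀ φ) (h2 : P p m i₀ ψ) :
    P p m i₀ (fun q => φ q + ψ q) := by
  obtain ⟨f, K, hf⟩ := h1
  obtain ⟨g, L, hg⟩ := h2
  refine ⟨fun x => f x + g x, max K L, fun N hN i q => ?_⟩
  simp only [DSl_add, Finset.sum_add_distrib]
  rw [hf N ((le_max_left _ _).trans hN) i q, hg N ((le_max_right _ _).trans hN) i q]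
  by_cases hi : i = i₀
  · simp [hi]
  · simp [hi]

theorem P_smul {p m i₀ : ℕ} (c : ZMod p) {φ : Lamp p m → ZMod p} (h1 : P p m i₀ φ) :
    P p m i₀ (fun q => c * φ q) := by
  obtain ⟨f, K, hf⟩ := h1
  refine ⟨fun x => c * f x, K, fun N hN i q => ?_⟩
  simp only [DSl_smul, ← Finset.mul_sum]
  rw [hf N hN i q]
  by_cases hi : i = i₀
  · simp [hi]
  · simp [hi]

theorem P_sum {p m i₀ : ℕ} {ι : Type} (s : Finset ι) (φ : ι → Lamp p m → ZMod p)
    (h : ∀ j, P p m i₀ (φ j)) : P p m i₀ (fun q => ∑ j ∈ s, φ j q) := by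
  classical
  induction s using Finset.induction_on with
  | empty => simpa using P_zero p m i₀
  | insert a s ha ih =>
    have := P_add (h a) ih
    simpa [Finset.sum_insert ha] using this

end SOLQ

open SOLQ in
theorem solq_thm (hJUN : JUNStmt) (hTERM : TERMStmt) : SOLQStmt := by
  intro p hp m₀ i₀
  obtain ⟨M, hM⟩ := hTERM p ((p - 1) * p ^ m₀) i₀
  refine ⟨max M m₀, le_max_right _ _, ?_⟩
  intro g
  have : NeZero (p ^ (max M m₀)) := ⟨(pow_pos hp.out.pos _).ne'⟩
  have key : ∀ g₀ : ZMod (p ^ (max M m₀)), P p (max M m₀) i₀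
      (fun q => if q.pos = g₀ then g (lampProj p (le_max_right M m₀) ⟨q.lamp, g₀⟩) else 0) := by
    intro g₀
    have hj := hJUN p m₀ (max M m₀) (le_max_right _ _) g g₀
    have gen : ∀ φ ∈ Submodule.span (ZMod p)
        {φ : (ZMod (p ^ (max M m₀)) → ZMod p) → ZMod p |
          ∃ l : List (ZMod (p ^ (max M m₀))), l.length ≤ (p - 1) * p ^ m₀ ∧
            φ = fun a => (l.map a).prod},
        P p (max M m₀) i₀ (fun q => if q.pos = g₀ then φ q.lamp else 0) := by
      intro φ hφ
      induction hφ using Submodule.span_induction with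
      | mem φ hφ =>
        obtain ⟨l, hl, rfl⟩ := hφ
        obtain ⟨f, K₀, hf⟩ := hM _ (le_max_left _ _) l hl g₀
        refine ⟨f, K₀, fun K hK i q => ?_⟩
        rw [hf K hK i q]
        by_cases hi : i = i₀
        · by_cases hq : q.pos = g₀
          · simp [hi, hq]
          · simp [hi, hq]
        · simp [hi]
      | zero =>
        have := P_zero p (max M m₀) i₀
        simpa using this
      | add φ ψ _ _ h1 h2 =>
        have h := P_add h1 h2
        have e : (fun q : Lamp p (max M m₀) => if q.pos = g₀ then (φ + ψ) q.lamp else 0) =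
            (fun q => (if q.pos = g₀ then φ q.lamp else 0) +
              (if q.pos = g₀ then ψ q.lamp else 0)) := by
          funext q
          by_cases hq : q.pos = g₀
          · simp [hq]
          · simp [hq]
        rw [e]
        exact h
      | smul c φ _ h1 =>
        have h := P_smul c h1
        have e : (fun q : Lamp p (max M m₀) => if q.pos = g₀ then (c • φ) q.lamp else 0) =
            (fun q => c * (if q.pos = g₀ then φ q.lamp else 0)) := by
          funext q
          by_cases hq : q.pos = g₀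
          · simp [hq]
          · simp [hq]
        rw [e]
        exact h
    exact gen _ hj
  have h := P_sum Finset.univ _ key
  have e : (fun q : Lamp p (max M m₀) => ∑ g₀ : ZMod (p ^ (max M m₀)),
      if q.pos = g₀ then g (lampProj p (le_max_right M m₀) ⟨q.lamp, g₀⟩) else 0) =
      fun q => g (lampProj p (le_max_right M m₀) q) := by
    funext q
    rw [Finset.sum_ite_eq]
    simp
  rw [e] at h
  exact h

end Pool.Agent.H82.PRP
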