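import Pool.Agent.H82.PRP.Stmts

/-!
# SYS: the homomorphisms to the lamplighter groups
-/

namespace Pool.Agent.H82.PRP

open Filter Topology

theorem sys_thm (hLFIN : LFINStmt) : SYSStmt := by
  intro p hp F _ _ _ _ _ gen D hF
  have hα : ∀ m, ∃ φ : F →* Lamp p m, (∃ n, D n ≤ φ.ker) ∧
      ∀ i, φ (gen i) = (![lampX p m, lampY p m, 1] : Fin 3 → Lamp p m) i := by
    intro m
    have h := (hLFIN p m).1
    have := h.1
    exact hF.ext (Lamp p m) h.2 _
  have hβ : ∀ m, ∃ φ : F →* E1 p (Lamp p m), (∃ n, D n ≤ φ.ker) ∧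
      ∀ i, φ (gen i) = (![⟨0, lampX p m⟩, ⟨0, lampY p m⟩, ⟨1, 1⟩] : Fin 3 → E1 p (Lamp p m)) i := by
    intro m
    have h := (hLFIN p m).2
    have := h.1
    exact hF.ext (E1 p (Lamp p m)) h.2 _
  choose α hα1 hα2 using hα
  choose β hβ1 hβ2 using hβ
  exact ⟨α, β, ⟨hα1, fun m => by simpa using hα2 m 0, fun m => by simpa using hα2 m 1,
    fun m => by simpa using hα2 m 2⟩, ⟨hβ1, fun m => by simpa using hβ2 m 0,
    fun m => by simpa using hβ2 m 1, fun m => by simpa using hβ2 m 2⟩⟩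

end Pool.Agent.H82.PRP
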