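import Pool.Agent.H82.PRP.Stmts

/-!
# UNIQ: a derivation is determined by its values on the generators
-/

namespace Pool.Agent.H82.PRP

open Filter Topology

namespace UNIQ

theorem der_one {p : ℕ} {F : Type} [Group F] {D : ℕ → Subgroup F} {δ : F → F → ZMod p}
    (h : IsDer D δ) (x : F) : δ 1 x = 0 := by
  have := h.mul 1 1 x
  simpa using this

theorem der_inv {p : ℕ} {F : Type} [Group F] {D : ℕ → Subgroup F} {δ : F → F → ZMod p}
    (h : IsDer D δ) (w x : F) : δ w⁻¹ x = - δ w (x * w⁻¹) := by
  have h1 := h.mul w⁻¹ w x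
  rw [inv_mul_cancel, der_one h] at h1
  exact eq_neg_of_add_eq_zero_left h1.symm

/-- a subgroup of `F` containing the generators and some `D n` is everything -/
theorem all_of_gens {p : ℕ} {F : Type} [Group F] [TopologicalSpace F] {gen : Fin 3 → F}
    {D : ℕ → Subgroup F} (hF : FPP p F gen D) (H : Subgroup F) (h1 : ∀ i, gen i ∈ H) (n : ℕ)
    (h2 : D n ≤ H) : H = ⊤ := by
  rw [eq_top_iff, ← hF.dense n]
  refine sup_le ?_ h2
  rw [Subgroup.closure_le]
  rintro _ ⟨i, rfl⟩
  exact h1 i

end UNIQ

open UNIQ in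
theorem uniq_thm : UNIQStmt := by
  intro p hp F _ _ _ _ _ gen D hF δ δ' hδ hδ' hg
  obtain ⟨n1, hn1⟩ := hδ.loc
  obtain ⟨n2, hn2⟩ := hδ'.loc
  let H : Subgroup F :=
    { carrier := {w | ∀ x, δ w x = δ' w x}
      one_mem' := by
        intro x
        rw [der_one hδ, der_one hδ']
      mul_mem' := by
        intro v w hv hw x
        rw [hδ.mul, hδ'.mul, hv, hw]
      inv_mem' := by
        intro w hw x
        rw [der_inv hδ, der_inv hδ', hw] }
  have hH : H = ⊤ := by
    apply all_of_gens hF H hg (max n1 n2)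
    intro d hd x
    have h1 : δ d x = 0 := by
      have := (hn1 1 x d (hF.anti (le_max_left n1 n2) hd)).1
      rwa [one_mul, der_one hδ] at this
    have h2 : δ' d x = 0 := by
      have := (hn2 1 x d (hF.anti (le_max_right n1 n2) hd)).1
      rwa [one_mul, der_one hδ'] at this
    rw [h1, h2]
  funext w x
  have : w ∈ H := by
    rw [hH]
    exact Subgroup.mem_top w
  exact this x

end Pool.Agent.H82.PRP
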