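import Mathlib

/-!
# Definitions for MP_9180b3_al (pro-p groups of subexponential growth and finite cd)
-/

namespace Pool.Agent.H82.PRP

open Filter Topology

/-! ### Notions used in the final statement -/

/-- the augmentation `F_p[G] → F_p` of the group algebra -/
noncomputable def augMap (p : ℕ) (G : Type) [Group G] :
    MonoidAlgebra (ZMod p) G →ₐ[ZMod p] ZMod p :=
  MonoidAlgebra.lift (ZMod p) (ZMod p) G (1 : G →* ZMod p)

/-- the augmentation ideal of `F_p[G]`, as an `F_p`-subspace (its powers are taken as products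
of subspaces) -/
noncomputable def augI (p : ℕ) (G : Type) [Group G] : Submodule (ZMod p) (MonoidAlgebra (ZMod p) G) :=
  LinearMap.ker (augMap p G).toLinearMap

/-- the map `F_p[G/U] → F_p[G/V]` for open normal subgroups `U ≤ V` -/
noncomputable def transMap (p : ℕ) {G : Type} [Group G] [TopologicalSpace G]
    {U V : OpenNormalSubgroup G} (h : U.toSubgroup ≤ V.toSubgroup) :
    MonoidAlgebra (ZMod p) (G ⧸ U.toSubgroup) →ₐ[ZMod p] MonoidAlgebra (ZMod p) (G ⧸ V.toSubgroup) :=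
  MonoidAlgebra.mapDomainAlgHom (ZMod p) (ZMod p)
    (QuotientGroup.map U.toSubgroup V.toSubgroup (MonoidHom.id G) h)

/-- the completed group algebra `F_p[[G]] = lim F_p[G/U]` over all open normal subgroups -/
noncomputable def CGA (p : ℕ) (G : Type) [Group G] [TopologicalSpace G] :
    Subalgebra (ZMod p)
      ((U : OpenNormalSubgroup G) → MonoidAlgebra (ZMod p) (G ⧸ U.toSubgroup)) where
  carrier := {f | ∀ (U V : OpenNormalSubgroup G) (h : U.toSubgroup ≤ V.toSubgroup),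
    transMap p h (f U) = f V}
  mul_mem' := by
    intro a b ha hb U V h
    simp only [Pi.mul_apply, map_mul]
    rw [ha U V h, hb U V h]
  add_mem' := by
    intro a b ha hb U V h
    simp only [Pi.add_apply, map_add]
    rw [ha U V h, hb U V h]
  algebraMap_mem' := by
    intro r U V h
    simp only [Pi.algebraMap_apply]
    exact (transMap p h).commutes r

/-- the augmentation ideal of `F_p[[G]]` (the kernel of the augmentation `F_p[[G]] → F_p`) -/
noncomputable def augIhat (p : ℕ) (G : Type) [Group G] [TopologicalSpace G] :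
    Submodule (ZMod p) (CGA p G) where
  carrier := {f | ∀ U : OpenNormalSubgroup G, augMap p _ (f.1 U) = 0}
  add_mem' := by
    intro a b ha hb U
    have h1 := ha U
    have h2 := hb U
    simp [h1, h2]
  zero_mem' := by
    intro U
    simp
  smul_mem' := by
    intro c a ha U
    have h1 := ha U
    simp [h1]

/-- `a_n(G) = dim_{F_p} I^n / I^{n+1}`, `I` the augmentation ideal of `F_p[[G]]` -/
noncomputable def aSeq (p : ℕ) (G : Type) [Group G] [TopologicalSpace G] (n : ℕ) : ℕ :=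
  Module.finrank (ZMod p)
    (↥((augIhat p G) ^ n) ⧸ ((augIhat p G) ^ (n + 1)).comap ((augIhat p G) ^ n).subtype)

/-- the differential of the complex of inhomogeneous cochains with coefficients in the trivial
module `F_p` -/
def dco (p : ℕ) (G : Type) [Group G] (n : ℕ) (f : (Fin n → G) → ZMod p) :
    (Fin (n + 1) → G) → ZMod p :=
  fun g => f (fun i => g i.succ) +
    ∑ j : Fin (n + 1), (-1 : ZMod p) ^ ((j : ℕ) + 1) * f (Fin.contractNth j (· * ·) g)

/-- `H^{n+1}(G, F_p) = 0` for the profinite group `G`: every continuous (= locally constant)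
`(n+1)`-cocycle is the coboundary of a continuous `n`-cochain -/
def HVanish (p : ℕ) (G : Type) [Group G] [TopologicalSpace G] (n : ℕ) : Prop :=
  ∀ f : (Fin (n + 1) → G) → ZMod p, IsLocallyConstant f → dco p G (n + 1) f = 0 →
    ∃ h : (Fin n → G) → ZMod p, IsLocallyConstant h ∧ dco p G n h = f

/-- cohomological dimension at most `d` : `H^m(G, F_p) = 0` for all `m > d` -/
def CdLE (p : ℕ) (G : Type) [Group G] [TopologicalSpace G] (d : ℕ) : Prop :=
  ∀ n, d ≤ n → HVanish p G n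

/-- every open normal subgroup has `p`-power index -/
def IsProP (p : ℕ) (G : Type) [Group G] [TopologicalSpace G] : Prop :=
  ∀ U : OpenNormalSubgroup G, ∃ k, U.toSubgroup.index = p ^ k

/-- `G` is topologically generated by `d` elements -/
def GenBy (G : Type) [Group G] [TopologicalSpace G] (d : ℕ) : Prop :=
  ∃ s : Fin d → G, ∀ U : Set G, IsOpen U → U.Nonempty → (U ∩ (Subgroup.closure (Set.range s) : Set G)).Nonempty

/-- finite rank: there is a uniform bound for the number of topological generators of the closed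
subgroups -/
def FiniteRank (G : Type) [Group G] [TopologicalSpace G] : Prop :=
  ∃ r : ℕ, ∀ H : Subgroup G, IsClosed (H : Set G) → ∃ d ≤ r, GenBy H d

/-! ### The free pro-p group of rank three, with a filtration -/

/-- `F` is a free pro-`p` group on `gen 0, gen 1, gen 2`, with its filtration `D` -/
structure FPP (p : ℕ) (F : Type) [Group F] [TopologicalSpace F] (gen : Fin 3 → F)
    (D : ℕ → Subgroup F) : Prop where
  normal : ∀ n, (D n).Normal
  isOpen : ∀ n, IsOpen (D n : Set F)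
  anti : Antitone D
  one : D 1 = ⊤
  basis : ∀ U : Set F, IsOpen U → (1 : F) ∈ U → ∃ n, (D n : Set F) ⊆ U
  comm : ∀ a b : ℕ, ∀ g ∈ D a, ∀ h ∈ D b, g * h * g⁻¹ * h⁻¹ ∈ D (a + b)
  pow : ∀ a : ℕ, ∀ g ∈ D a, g ^ p ∈ D (p * a)
  index : ∀ n, ∃ k, (D n).index = p ^ k
  dense : ∀ n, Subgroup.closure (Set.range gen) ⊔ D n = ⊤
  ext : ∀ (P : Type) [Group P] [Finite P], IsPGroup p P → ∀ y : Fin 3 → P,
    ∃ φ : F →* P, (∃ n, D n ≤ φ.ker) ∧ ∀ i, φ (gen i) = y i
  aug : ∀ (P : Type) [Group P] [Finite P] (φ : F →* P), (∃ n, D n ≤ φ.ker) →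
    ∀ n, 1 ≤ n → ∀ g ∈ D n, MonoidAlgebra.of (ZMod p) P (φ g) - 1 ∈ (augI p P) ^ n

/-! ### Derivations -/

/-- locally constant derivations `δ : F → C(F)`, `δ(vw, x) = δ(v, x) + δ(w, xv)` -/
structure IsDer {p : ℕ} {F : Type} [Group F] (D : ℕ → Subgroup F) (δ : F → F → ZMod p) : Prop where
  mul : ∀ v w x, δ (v * w) x = δ v x + δ w (x * v)
  loc : ∃ n, ∀ w x, ∀ d ∈ D n, δ (w * d) x = δ w x ∧ δ w (x * d) = δ w x

/-- right invariance of a function under a subgroup -/
def RInv {F X : Type} [Group F] (L : Subgroup F) (f : F → X) : Prop :=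
  ∀ x, ∀ l ∈ L, f (x * l) = f x

/-- the solvability property `S(L)` -/
def Solv {p : ℕ} {F T : Type} [Group F] (D : ℕ → Subgroup F) (r : T → F) (L : Subgroup F) : Prop :=
  ∀ f : T → F → ZMod p, {t | f t ≠ 0}.Finite → (∃ n, ∀ t, RInv (D n) (f t)) →
    (∀ t, RInv L (f t)) →
    ∃ δ : F → F → ZMod p, IsDer D δ ∧ (∀ w, RInv L (δ w)) ∧ ∀ t x, δ (r t) x = f t x

/-! ### The lamplighter groups `C_p ≀ C_{p^m}` -/

/-- the group `C_p ≀ C_{p^m}` -/
@[ext]
structure Lamp (p m : ℕ) : Type where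
  lamp : ZMod (p ^ m) → ZMod p
  pos : ZMod (p ^ m)

namespace Lamp

variable {p m : ℕ}

instance : Mul (Lamp p m) := ⟨fun a b => ⟨fun i => a.lamp i + b.lamp (i - a.pos), a.pos + b.pos⟩⟩
instance : One (Lamp p m) := ⟨⟨0, 0⟩⟩
instance : Inv (Lamp p m) := ⟨fun a => ⟨fun i => - a.lamp (i + a.pos), - a.pos⟩⟩

@[simp] theorem mul_lamp (a b : Lamp p m) (i : ZMod (p ^ m)) :
    (a * b).lamp i = a.lamp i + b.lamp (i - a.pos) := rfl
@[simp] theorem mul_pos' (a b : Lamp p m) : (a * b).pos = a.pos + b.pos := rfl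
@[simp] theorem one_lamp (i : ZMod (p ^ m)) : (1 : Lamp p m).lamp i = 0 := rfl
@[simp] theorem one_pos' : (1 : Lamp p m).pos = 0 := rfl
@[simp] theorem inv_lamp (a : Lamp p m) (i : ZMod (p ^ m)) :
    (a⁻¹).lamp i = - a.lamp (i + a.pos) := rfl
@[simp] theorem inv_pos' (a : Lamp p m) : (a⁻¹).pos = - a.pos := rfl

instance : Group (Lamp p m) where
  mul_assoc a b c := by
    ext i
    · simp [add_assoc, sub_add_eq_sub_sub]
    · simp [add_assoc]
  one_mul a := by
    ext i <;> simp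
  mul_one a := by
    ext i <;> simp
  inv_mul_cancel a := by
    ext i <;> simp

end Lamp

/-- the generator of the top group -/
def lampX (p m : ℕ) : Lamp p m := ⟨0, 1⟩

/-- the lamp at `0` -/
noncomputable def lampY (p m : ℕ) : Lamp p m := by
  classical exact ⟨Pi.single 0 1, 0⟩

/-- the lamp at `s` : `x^s y x^{-s}` -/
noncomputable def lampYs (p m : ℕ) (s : ℕ) : Lamp p m :=
  lampX p m ^ s * lampY p m * (lampX p m ^ s)⁻¹

/-- the projection `C_p ≀ C_{p^m'} → C_p ≀ C_{p^m}` for `m ≤ m'` -/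
noncomputable def lampProj (p : ℕ) {m m' : ℕ} (h : m ≤ m') (q : Lamp p m') : Lamp p m := by
  classical exact
    ⟨fun j => ∑ᶠ i ∈ {i : ZMod (p ^ m') | ZMod.castHom (pow_dvd_pow p h) (ZMod (p ^ m)) i = j}, q.lamp i,
      ZMod.castHom (pow_dvd_pow p h) (ZMod (p ^ m)) q.pos⟩

/-! ### The groups `F_p[Q] ⋊ Q` -/

/-- the group `F_p[Q] ⋊ Q` (`Q` acts by left multiplication on the additive group `F_p[Q]`) -/
@[ext]
structure E1 (p : ℕ) (Q : Type) [Group Q] : Type where
  u : MonoidAlgebra (ZMod p) Q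
  q : Q

namespace E1

variable {p : ℕ} {Q : Type} [Group Q]

noncomputable instance : Mul (E1 p Q) :=
  ⟨fun a b => ⟨a.u + MonoidAlgebra.of (ZMod p) Q a.q * b.u, a.q * b.q⟩⟩
noncomputable instance : One (E1 p Q) := ⟨⟨0, 1⟩⟩
noncomputable instance : Inv (E1 p Q) :=
  ⟨fun a => ⟨- (MonoidAlgebra.of (ZMod p) Q a.q⁻¹ * a.u), a.q⁻¹⟩⟩

@[simp] theorem mul_u (a b : E1 p Q) :
    (a * b).u = a.u + MonoidAlgebra.of (ZMod p) Q a.q * b.u := rfl
@[simp] theorem mul_q (a b : E1 p Q) : (a * b).q = a.q * b.q := rfl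
@[simp] theorem one_u : (1 : E1 p Q).u = 0 := rfl
@[simp] theorem one_q : (1 : E1 p Q).q = 1 := rfl
@[simp] theorem inv_u (a : E1 p Q) : (a⁻¹).u = - (MonoidAlgebra.of (ZMod p) Q a.q⁻¹ * a.u) := rfl
@[simp] theorem inv_q (a : E1 p Q) : (a⁻¹).q = a.q⁻¹ := rfl

noncomputable instance : Group (E1 p Q) where
  mul_assoc a b c := by
    ext1
    · simp only [mul_u, mul_q, map_mul, mul_add, add_assoc, mul_assoc]
    · simp [mul_assoc]
  one_mul a := by
    ext1
    · change 0 + MonoidAlgebra.of (ZMod p) Q 1 * a.u = a.u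
      rw [map_one, one_mul, zero_add]
    · simp
  mul_one a := by
    ext1 <;> simp
  inv_mul_cancel a := by
    ext1
    · simp
    · simp

end E1

/-! ### Systems of homomorphisms, iterated differences -/

/-- the compatible homomorphisms `F → C_p ≀ C_{p^m}` -/
structure LampSys (p : ℕ) {F : Type} [Group F] (gen : Fin 3 → F) (D : ℕ → Subgroup F)
    (α : ∀ m, F →* Lamp p m) : Prop where
  cont : ∀ m, ∃ n, D n ≤ (α m).ker
  gen0 : ∀ m, α m (gen 0) = lampX p m
  gen1 : ∀ m, α m (gen 1) = lampY p m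
  gen2 : ∀ m, α m (gen 2) = 1

/-- the compatible homomorphisms `F → F_p[Q_m] ⋊ Q_m`, `Q_m = C_p ≀ C_{p^m}` -/
structure E1Sys (p : ℕ) {F : Type} [Group F] (gen : Fin 3 → F) (D : ℕ → Subgroup F)
    (β : ∀ m, F →* E1 p (Lamp p m)) : Prop where
  cont : ∀ m, ∃ n, D n ≤ (β m).ker
  gen0 : ∀ m, β m (gen 0) = ⟨0, lampX p m⟩
  gen1 : ∀ m, β m (gen 1) = ⟨0, lampY p m⟩
  gen2 : ∀ m, β m (gen 2) = ⟨1, 1⟩

/-- kernel of `F → Q` -/
def NQ {p : ℕ} {F : Type} [Group F] (α : ∀ m, F →* Lamp p m) : Subgroup F := ⨅ m, (α m).ker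

/-- kernel of `F → Q_1` -/
noncomputable def N1 {p : ℕ} {F : Type} [Group F] (β : ∀ m, F →* E1 p (Lamp p m)) : Subgroup F :=
  ⨅ m, (β m).ker

/-- iterated differences `(y_{s_1} - 1) ⋯ (y_{s_l} - 1) f` -/
noncomputable def DSl {p m : ℕ} : List ℕ → (Lamp p m → ZMod p) → Lamp p m → ZMod p
  | [], f => f
  | s :: S, f => fun q => DSl S f (q * lampYs p m s) - DSl S f q

/-- the sets `S_{i,k}` -/
def SS (i k : ℕ) : List ℕ :=
  (List.range (i + k + 1)).map (fun l => 2 * 4 ^ (Nat.pair (Nat.pair i k) l))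

/-- partial products -/
def pp {F : Type} [Group F] (w : ℕ → F) : ℕ → F
  | 0 => 1
  | (K + 1) => pp w K * w K

/-! ### Growth -/

/-- subexponential sequences -/
def Subexp (s : ℕ → ℕ) : Prop :=
  ∀ ε : ℝ, 0 < ε → ∃ C : ℝ, ∀ n, (s n : ℝ) ≤ C * (1 + ε) ^ n

end Pool.Agent.H82.PRP
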