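import Pool.Agent.H82.PRP.Defs

/-!
# Cochains with coefficients in a representation, locally constant functions
-/

namespace Pool.Agent.H82.PRP

open Filter Topology

/-- the differential of inhomogeneous cochains with coefficients in a representation -/
def dM {p : ℕ} {G V : Type} [Group G] [AddCommGroup V] [Module (ZMod p) V]
    (ρ : Representation (ZMod p) G V) (n : ℕ) (f : (Fin n → G) → V) : (Fin (n + 1) → G) → V :=
  fun g => ρ (g 0) (f fun i => g i.succ) +
    ∑ j : Fin (n + 1), (-1 : ZMod p) ^ ((j : ℕ) + 1) • f (Fin.contractNth j (· * ·) g)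

/-- `H^{n+1}(G, V) = 0` for locally constant cochains -/
def HV {p : ℕ} {G V : Type} [Group G] [TopologicalSpace G] [AddCommGroup V] [Module (ZMod p) V]
    (ρ : Representation (ZMod p) G V) (n : ℕ) : Prop :=
  ∀ f : (Fin (n + 1) → G) → V, IsLocallyConstant f → dM ρ (n + 1) f = 0 →
    ∃ h : (Fin n → G) → V, IsLocallyConstant h ∧ dM ρ n h = f

/-- the space of locally constant functions `G → V` -/
def LC (p : ℕ) (G V : Type) [TopologicalSpace G] [AddCommGroup V] [Module (ZMod p) V] :
    Submodule (ZMod p) (G → V) where
  carrier := {f | IsLocallyConstant f}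
  add_mem' := fun ha hb => ha.add hb
  zero_mem' := IsLocallyConstant.const 0
  smul_mem' := fun c _ hf => hf.comp (fun v => c • v)

/-- left translations `(g φ)(x) = φ(g⁻¹ x)` on locally constant functions -/
def lrep (p : ℕ) (G V : Type) [Group G] [TopologicalSpace G] [IsTopologicalGroup G]
    [AddCommGroup V] [Module (ZMod p) V] : Representation (ZMod p) G (LC p G V) where
  toFun g :=
    { toFun := fun φ => ⟨fun x => φ.1 (g⁻¹ * x), φ.2.comp_continuous (continuous_const_mul g⁻¹)⟩
      map_add' := fun _ _ => rfl
      map_smul' := fun _ _ => rfl }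
  map_one' := by
    ext φ x
    simp
  map_mul' := by
    intro g h
    ext φ x
    simp [mul_assoc]

end Pool.Agent.H82.PRP
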